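import Mathlib

namespace Pool.Agent.H.MP_a79c01_pr

open MeasureTheory ProbabilityTheory Set

/-- law of one signal in state `t` -/
noncomputable def coin (t : Bool) : Measure Bool :=
  (4 / 5 : ENNReal) • Measure.dirac t + (1 / 5 : ENNReal) • Measure.dirac (!t)

/-- law of the signal sequence in state `t` -/
noncomputable def law (t : Bool) : Measure (ℕ → Bool) := Measure.infinitePi fun _ => coin t

/-- what agent `n` knows -/
def info (N : ℕ → Finset ℕ) (a : ℕ → (ℕ → Bool) → Bool) (n : ℕ) (s : ℕ → Bool) :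
    Set (ℕ → Bool) :=
  {r | (∀ m ∈ N n, a m r = a m s) ∧ r n = s n}

/-- Bayesian play with a tie-breaking rule -/
def Bayes (N : ℕ → Finset ℕ) (tie : ℕ → Finset ℕ → Bool → Bool)
    (a : ℕ → (ℕ → Bool) → Bool) : Prop :=
  ∀ n s, a n s =
    if law false (info N a n s) < law true (info N a n s) then true
    else if law true (info N a n s) < law false (info N a n s) then false
    else tie n ((N n).filter fun m => a m s = true) (s n)

abbrev Om := ℕ → Bool

instance coin_prob (t : Bool) : IsProbabilityMeasure (coin t) := by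
  constructor
  simp only [coin, Measure.coe_add, Measure.coe_smul, Pi.add_apply, Pi.smul_apply, measure_univ,
    smul_eq_mul, mul_one]
  rw [ENNReal.div_add_div_same]
  norm_num
  exact ENNReal.div_self (by norm_num) (by norm_num)

instance law_prob (t : Bool) : IsProbabilityMeasure (law t) := by
  unfold law; infer_instance

noncomputable def pr (t : Bool) (E : Set Om) : ℝ := (law t).real E

noncomputable def w (t b : Bool) : ℝ := if b = t then 4 / 5 else 1 / 5

lemma w_self (t : Bool) : w t t = 4 / 5 := by simp [w]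
lemma w_not (t : Bool) : w t (!t) = 1 / 5 := by cases t <;> simp [w]
lemma w_not' (t : Bool) : w (!t) t = 1 / 5 := by cases t <;> simp [w]
lemma w_ge (t b : Bool) : 1 / 5 ≤ w t b := by unfold w; split_ifs <;> norm_num
lemma w_le (t b : Bool) : w t b ≤ 4 / 5 := by unfold w; split_ifs <;> norm_num

lemma pr_nonneg (t : Bool) (E : Set Om) : 0 ≤ pr t E := measureReal_nonneg
lemma pr_le_one (t : Bool) (E : Set Om) : pr t E ≤ 1 := measureReal_le_one
lemma pr_mono (t : Bool) {E F : Set Om} (h : E ⊆ F) : pr t E ≤ pr t F := measureReal_mono h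
lemma pr_union_le (t : Bool) (E F : Set Om) : pr t (E ∪ F) ≤ pr t E + pr t F :=
  measureReal_union_le E F
lemma pr_univ (t : Bool) : pr t univ = 1 := probReal_univ

lemma law_lt_iff (t u : Bool) (E : Set Om) : law t E < law u E ↔ pr t E < pr u E := by
  unfold pr Measure.real
  rw [ENNReal.toReal_lt_toReal (measure_ne_top _ _) (measure_ne_top _ _)]

/-- the event depends only on the coordinates in `D` -/
def DS (E : Set Om) (D : Finset ℕ) : Prop := ∀ s r, (∀ i ∈ D, s i = r i) → s ∈ E → r ∈ E

lemma DS.eq_pre {E : Set Om} {D : Finset ℕ} (h : DS E D) :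
    E = (fun (s : Om) (i : D) => s i) ⁻¹' ((fun (s : Om) (i : D) => s i) '' E) := by
  ext s
  refine ⟨fun hs => ⟨s, hs, rfl⟩, ?_⟩
  rintro ⟨r, hr, hrs⟩
  exact h r s (fun i hi => congrFun hrs ⟨i, hi⟩) hr

lemma DS.meas {E : Set Om} {D : Finset ℕ} (h : DS E D) : MeasurableSet E := by
  rw [h.eq_pre]
  exact (measurable_pi_lambda _ fun i => measurable_pi_apply _) MeasurableSet.of_discrete

lemma DS.mono {E : Set Om} {D D' : Finset ℕ} (h : DS E D) (hD : D ⊆ D') : DS E D' :=
  fun s r hsr hs => h s r (fun i hi => hsr i (hD hi)) hs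

lemma DS.inter {E F : Set Om} {D : Finset ℕ} (h : DS E D) (h' : DS F D) : DS (E ∩ F) D :=
  fun s r hsr hs => ⟨h s r hsr hs.1, h' s r hsr hs.2⟩

lemma DS.inter' {E F : Set Om} {D D' : Finset ℕ} (h : DS E D) (h' : DS F D') :
    DS (E ∩ F) (D ∪ D') :=
  (h.mono Finset.subset_union_left).inter (h'.mono Finset.subset_union_right)

lemma DS.compl {E : Set Om} {D : Finset ℕ} (h : DS E D) : DS Eᶜ D :=
  fun s r hsr hs hr => hs (h r s (fun i hi => (hsr i hi).symm) hr)

lemma DS.coord (i : ℕ) (b : Bool) : DS {s | s i = b} {i} :=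
  fun s r hsr hs => (hsr i (Finset.mem_singleton_self i)).symm.trans hs

lemma indepF (t : Bool) {D D' : Finset ℕ} (hD : Disjoint D D') :
    IndepFun (fun (s : Om) (i : D) => s i) (fun (s : Om) (i : D') => s i) (law t) := by
  have := iIndepFun_infinitePi (P := fun _ : ℕ => coin t) (X := fun _ b => b)
    (fun _ => measurable_id)
  exact this.indepFun_finset D D' hD (fun i => measurable_pi_apply i)

lemma indep (t : Bool) {E F : Set Om} {D D' : Finset ℕ} (h : DS E D) (h' : DS F D')
    (hD : Disjoint D D') : pr t (E ∩ F) = pr t E * pr t F := by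
  have := (indepF t hD).measure_inter_preimage_eq_mul ((fun (s : Om) (i : D) => s i) '' E)
    ((fun (s : Om) (i : D') => s i) '' F) MeasurableSet.of_discrete MeasurableSet.of_discrete
  rw [← h.eq_pre, ← h'.eq_pre] at this
  unfold pr Measure.real
  rw [this, ENNReal.toReal_mul]

lemma pr_coord (t : Bool) (i : ℕ) (b : Bool) : pr t {s | s i = b} = w t b := by
  have h := (measurePreserving_eval_infinitePi (fun _ : ℕ => coin t) i).measure_preimage
    (s := {b}) (MeasurableSet.of_discrete.nullMeasurableSet)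
  have e : {s : Om | s i = b} = (Function.eval i : (ℕ → Bool) → Bool) ⁻¹' {b} := rfl
  unfold pr Measure.real law
  rw [e, h]
  cases t <;> cases b <;> simp [coin, w]

lemma pr_compl (t : Bool) {E : Set Om} {D : Finset ℕ} (h : DS E D) : pr t Eᶜ = 1 - pr t E := by
  unfold pr
  rw [measureReal_compl h.meas, probReal_univ]

lemma pr_split (t : Bool) (E : Set Om) {F : Set Om} {D : Finset ℕ} (h : DS F D) :
    pr t E = pr t (E ∩ F) + pr t (E ∩ Fᶜ) := by
  unfold pr
  rw [← Set.diff_eq, measureReal_inter_add_diff h.meas]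

/-- cylinder -/
def cyl (D : Finset ℕ) (s : Om) : Set Om := {r | ∀ i ∈ D, r i = s i}

lemma cyl_DS (D : Finset ℕ) (s : Om) : DS (cyl D s) D :=
  fun _ _ h hs i hi => (h i hi).symm.trans (hs i hi)

lemma cyl_insert (i : ℕ) (D : Finset ℕ) (s : Om) :
    cyl (insert i D) s = cyl D s ∩ {r | r i = s i} := by
  ext r; simp [cyl, and_comm]

lemma pr_cyl (t : Bool) (D : Finset ℕ) (s : Om) : pr t (cyl D s) = ∏ i ∈ D, w t (s i) := by
  induction D using Finset.induction_on with
  | empty => simp [cyl, pr_univ]
  | insert i D hi ih =>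
    rw [cyl_insert, indep t (cyl_DS D s) (DS.coord i _) (by simpa using hi), ih, pr_coord,
      Finset.prod_insert hi, mul_comm]

lemma DS.ge {E : Set Om} {D : Finset ℕ} (h : DS E D) {s : Om} (hs : s ∈ E) (t : Bool) :
    (1 / 5 : ℝ) ^ D.card ≤ pr t E := by
  refine le_trans ?_ (pr_mono t (E := cyl D s) fun r hr => h s r (fun i hi => (hr i hi).symm) hs)
  rw [pr_cyl, ← Finset.prod_const]
  exact Finset.prod_le_prod (fun _ _ => by norm_num) fun i _ => w_ge _ _

lemma DS.pos {E : Set Om} {D : Finset ℕ} (h : DS E D) {s : Om} (hs : s ∈ E) (t : Bool) :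
    0 < pr t E := lt_of_lt_of_le (by positivity) (h.ge hs t)

/-- net number of signals equal to `c` -/
def net (c : Bool) (D : Finset ℕ) (s : Om) : ℤ := ∑ i ∈ D, if s i = c then 1 else -1

lemma net_insert (c : Bool) {i : ℕ} {D : Finset ℕ} (hi : i ∉ D) (s : Om) :
    net c (insert i D) s = (if s i = c then 1 else -1) + net c D s := Finset.sum_insert hi

lemma w_ratio (c b : Bool) : w c b = (4 : ℝ) ^ (if b = c then 1 else -1 : ℤ) * w (!c) b := by
  cases c <;> cases b <;> simp [w] <;> norm_num

lemma cyl_ratio (c : Bool) (D : Finset ℕ) (s : Om) :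
    pr c (cyl D s) = (4 : ℝ) ^ net c D s * pr (!c) (cyl D s) := by
  rw [pr_cyl, pr_cyl]
  induction D using Finset.induction_on with
  | empty => simp [net]
  | insert i D hi ih =>
    rw [Finset.prod_insert hi, Finset.prod_insert hi, ih, net_insert c hi,
      zpow_add₀ (by norm_num), w_ratio c (s i)]
    ring

lemma net_par (c : Bool) (D : Finset ℕ) (s : Om) : Even (net c D s + D.card) := by
  induction D using Finset.induction_on with
  | empty => simp [net]
  | insert i D hi ih =>
    rw [net_insert c hi, Finset.card_insert_of_notMem hi]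
    obtain ⟨x, hx⟩ := ih
    split_ifs
    · exact ⟨x + 1, by push_cast; omega⟩
    · exact ⟨x, by push_cast; omega⟩

lemma net_le (c : Bool) (D : Finset ℕ) (s : Om) : net c D s ≤ D.card := by
  have := Finset.sum_le_card_nsmul D (fun i => if s i = c then (1 : ℤ) else -1) 1
    (fun i _ => by split_ifs <;> norm_num)
  simpa [net] using this

lemma net_all (c : Bool) {D : Finset ℕ} {s : Om} (h : ∀ i ∈ D, s i = c) :
    net c D s = D.card := by
  unfold net
  rw [Finset.sum_congr rfl (g := fun _ => 1) fun i hi => by simp [h i hi]]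
  simp

lemma net_congr (c : Bool) {D : Finset ℕ} {s r : Om} (h : ∀ i ∈ D, s i = r i) :
    net c D s = net c D r := Finset.sum_congr rfl fun i hi => by rw [h i hi]

lemma net_not (c : Bool) (D : Finset ℕ) (s : Om) : net (!c) D s = -net c D s := by
  unfold net
  rw [← Finset.sum_neg_distrib]
  exact Finset.sum_congr rfl fun i _ => by cases c <;> cases s i <;> simp

/-- lower tail of a walk with `m` steps, up with probability `4/5` -/
noncomputable def T : ℕ → ℤ → ℝ
  | 0, x => if 0 < x then 1 else 0
  | m + 1, x => 4 / 5 * T m (x - 1) + 1 / 5 * T m (x + 1)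

lemma lo_DS (c : Bool) (D : Finset ℕ) (x : ℤ) : DS {s | net c D s < x} D :=
  fun s r h hs => by simpa [← net_congr c h] using hs

lemma pr_lo (c : Bool) (D : Finset ℕ) : ∀ x : ℤ, pr c {s | net c D s < x} = T D.card x := by
  induction D using Finset.induction_on with
  | empty =>
    intro x
    by_cases h : 0 < x <;> simp [net, T, h, pr_univ, pr]
  | insert i D hi ih =>
    intro x
    have hd : Disjoint D {i} := by simpa using hi
    have e1 : {s | net c (insert i D) s < x} ∩ {s | s i = c} =
        {s | net c D s < x - 1} ∩ {s | s i = c} := by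
      ext s
      simp only [mem_inter_iff, mem_setOf_eq, net_insert c hi, and_congr_left_iff]
      intro h; simp only [h, if_true]; omega
    have e2 : {s | net c (insert i D) s < x} ∩ {s | s i = c}ᶜ =
        {s | net c D s < x + 1} ∩ {s | s i = !c} := by
      ext s
      simp only [mem_inter_iff, mem_setOf_eq, net_insert c hi, mem_compl_iff]
      cases c <;> cases s i <;> simp <;> omega
    rw [pr_split c _ (DS.coord i c), e1, e2, indep c (lo_DS c D _) (DS.coord i _) hd,
      indep c (lo_DS c D _) (DS.coord i _) hd, ih, ih, pr_coord, pr_coord, w_self, w_not,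
      Finset.card_insert_of_notMem hi, T]
    ring

lemma T_nonneg : ∀ (m : ℕ) (x : ℤ), 0 ≤ T m x
  | 0, x => by unfold T; split_ifs <;> norm_num
  | m + 1, x => by
    have := T_nonneg m (x - 1); have := T_nonneg m (x + 1); unfold T; positivity

lemma T_mono : ∀ (m : ℕ) {x y : ℤ}, x ≤ y → T m x ≤ T m y
  | 0, x, y, h => by
    unfold T; split_ifs <;> first | omega | norm_num
  | m + 1, x, y, h => by
    have := T_mono m (x := x - 1) (y := y - 1) (by omega)
    have := T_mono m (x := x + 1) (y := y + 1) (by omega)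
    unfold T; linarith

lemma T_le : ∀ (m : ℕ) (x : ℤ), T m x ≤ (2 : ℝ) ^ x * (4 / 5) ^ m
  | 0, x => by
    unfold T
    split_ifs with h
    · simpa using one_le_zpow₀ (by norm_num : (1 : ℝ) ≤ 2) h.le
    · positivity
  | m + 1, x => by
    have h1 := T_le m (x - 1)
    have h2 := T_le m (x + 1)
    rw [zpow_sub_one₀ (by norm_num)] at h1
    rw [zpow_add_one₀ (by norm_num)] at h2
    unfold T
    rw [pow_succ]
    nlinarith

lemma T_down : ∀ (d m : ℕ) (x : ℤ),
    (1 / 5 : ℝ) ^ d * T m x ≤ T (m + d) (x - d) ∧ T (m + d) (x - d) ≤ T m x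
  | 0, m, x => by simp
  | d + 1, m, x => by
    obtain ⟨h1, h2⟩ := T_down d m x
    have e : T (m + (d + 1)) (x - (d + 1 : ℕ)) =
        4 / 5 * T (m + d) (x - d - 2) + 1 / 5 * T (m + d) (x - d) := by
      rw [← add_assoc, T]; congr 3 <;> push_cast <;> ring
    have h3 := T_nonneg (m + d) (x - d - 2)
    have h4 := T_mono (m + d) (x := x - d - 2) (y := x - d) (by omega)
    rw [e, pow_succ]
    constructor <;> nlinarith

lemma T_pos (m : ℕ) {x : ℤ} (h : -(m : ℤ) < x) : 0 < T m x := by
  have := (T_down m 0 (x + m)).1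
  rw [zero_add, add_sub_cancel_right, T, if_pos (by omega)] at this
  exact lt_of_lt_of_le (by positivity) this

end Pool.Agent.H.MP_a79c01_pr
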