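import Pool.Agent.H.MP_a79c01_pr.A

namespace Pool.Agent.H.MP_a79c01_pr

open MeasureTheory ProbabilityTheory Set Function

abbrev Net := ℕ → Finset ℕ
abbrev Prof := ℕ → Om → Bool
abbrev Tie := ℕ → Finset ℕ → Bool → Bool

def Valid (N : Net) : Prop := ∀ n, ∀ m ∈ N n, m < n

def ob (a : Prof) (S : Finset ℕ) (s : Om) : Set Om := {r | ∀ m ∈ S, a m r = a m s}

lemma info_eq (N : Net) (a : Prof) (n : ℕ) (s : Om) :
    info N a n s = ob a (N n) s ∩ {r | r n = s n} := rfl

lemma ob_self (a : Prof) (S : Finset ℕ) (s : Om) : s ∈ ob a S s := fun _ _ => rfl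

lemma ob_eq {a : Prof} {S : Finset ℕ} {s r : Om} (h : r ∈ ob a S s) : ob a S r = ob a S s := by
  ext x
  exact ⟨fun hx m hm => (hx m hm).trans (h m hm), fun hx m hm => (hx m hm).trans (h m hm).symm⟩

lemma ob_union (a : Prof) (S S' : Finset ℕ) (s : Om) :
    ob a (S ∪ S') s = ob a S s ∩ ob a S' s := by
  ext r; simp [ob, or_imp, forall_and]

lemma ob_anti (a : Prof) {S S' : Finset ℕ} (h : S ⊆ S') (s : Om) : ob a S' s ⊆ ob a S s :=
  fun _ hr m hm => hr m (h hm)

lemma ob_congr {a a' : Prof} {S : Finset ℕ} (h : ∀ m ∈ S, a m = a' m) (s : Om) :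
    ob a S s = ob a' S s := by
  ext r
  exact ⟨fun hr m hm => h m hm ▸ hr m hm, fun hr m hm => (h m hm).symm ▸ hr m hm⟩

lemma info_self (N : Net) (a : Prof) (n : ℕ) (s : Om) : s ∈ info N a n s := ⟨fun _ _ => rfl, rfl⟩

lemma info_eq_of {N : Net} {a : Prof} {n : ℕ} {s r : Om} (h : r ∈ info N a n s) :
    info N a n r = info N a n s := by
  rw [info_eq, info_eq, ob_eq h.1, h.2]

noncomputable def step (N : Net) (tie : Tie) (n : ℕ) (a : Prof) (s : Om) : Bool :=
  if law false (info N a n s) < law true (info N a n s) then true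
  else if law true (info N a n s) < law false (info N a n s) then false
  else tie n ((N n).filter fun m => a m s = true) (s n)

lemma step_congr {N N' : Net} (tie : Tie) {n : ℕ} {a a' : Prof} (hN : N n = N' n)
    (h : ∀ m ∈ N n, a m = a' m) (s : Om) : step N tie n a s = step N' tie n a' s := by
  have e : info N a n s = info N' a' n s := by rw [info_eq, info_eq, ob_congr h, hN]
  have e' : ((N n).filter fun m => a m s = true) = (N' n).filter fun m => a' m s = true := by
    rw [← hN]; exact Finset.filter_congr fun m hm => by rw [h m hm]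
  unfold step
  rw [e, e']

noncomputable def act (N : Net) (tie : Tie) : Prof :=
  (wellFounded_lt (α := ℕ)).fix fun n rec =>
    step N tie n fun m => if h : m < n then rec m h else fun _ => false

lemma act_bayes {N : Net} (hN : Valid N) (tie : Tie) : Bayes N tie (act N tie) := by
  intro n s
  change _ = step N tie n (act N tie) s
  conv_lhs => rw [act, WellFounded.fix_eq]
  exact step_congr tie rfl (fun m hm => by rw [dif_pos (hN n m hm)]; rfl) s

lemma bayes_congr {N N' : Net} {tie : Tie} {a a' : Prof} {K : ℕ} (hN : Valid N)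
    (h : ∀ m < K, N m = N' m) (ha : Bayes N tie a) (ha' : Bayes N' tie a') :
    ∀ m < K, a m = a' m := by
  intro m
  induction m using Nat.strong_induction_on with
  | _ m ih =>
    intro hm
    funext s
    rw [ha m s, ha' m s]
    exact step_congr tie (h m hm) (fun i hi => ih i (hN m i hi) ((hN m i hi).trans hm)) s

structure Rat (N : Net) (a : Prof) : Prop where
  lt : Valid N
  ad : ∀ n s r, r ∈ info N a n s → a n r = a n s
  opt : ∀ n s, pr (!(a n s)) (info N a n s) ≤ pr (a n s) (info N a n s)

lemma Bayes.rat {N : Net} {tie : Tie} {a : Prof} (hN : Valid N) (h : Bayes N tie a) :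
    Rat N a := by
  refine ⟨hN, fun n s r hr => ?_, fun n s => ?_⟩
  · have e' : ((N n).filter fun m => a m r = true) = (N n).filter fun m => a m s = true :=
      Finset.filter_congr fun m hm => by rw [hr.1 m hm]
    rw [h n s, h n r, info_eq_of hr, e', hr.2]
  · have := h n s
    simp only [law_lt_iff] at this
    split_ifs at this with h1 h2
    · rw [this]; exact h1.le
    · rw [this]; exact h2.le
    · cases a n s
      · exact not_lt.1 h1
      · exact not_lt.1 h2

variable {N : Net} {a : Prof}

lemma Rat.dep (h : Rat N a) (n : ℕ) : ∀ s r : Om, (∀ i ≤ n, s i = r i) → a n s = a n r := by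
  induction n using Nat.strong_induction_on with
  | _ n ih =>
    intro s r hsr
    exact h.ad n r s ⟨fun m hm => ih m (h.lt n m hm) s r fun i hi =>
      hsr i (hi.trans (h.lt n m hm).le), hsr n le_rfl⟩

lemma Rat.act_DS (h : Rat N a) {n K : ℕ} (hn : n < K) (p : Bool → Prop) :
    DS {s | p (a n s)} (Finset.range K) := fun s r hsr hs => by
  rw [mem_setOf_eq, ← h.dep n s r fun i hi => hsr i (Finset.mem_range.2 (by omega))]
  exact hs

lemma Rat.ob_DS (h : Rat N a) {S : Finset ℕ} {K : ℕ} (hS : S ⊆ Finset.range K) (s : Om) :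
    DS (ob a S s) (Finset.range K) := fun x r hxr hx m hm => by
  have := Finset.mem_range.1 (hS hm)
  rw [← h.dep m x r fun i hi => hxr i (Finset.mem_range.2 (by omega))]
  exact hx m hm

lemma Rat.sub (h : Rat N a) (n : ℕ) : N n ⊆ Finset.range n :=
  fun m hm => Finset.mem_range.2 (h.lt n m hm)

lemma Rat.info_DS (h : Rat N a) (n : ℕ) (s : Om) :
    DS (info N a n s) (Finset.range n ∪ {n}) := (h.ob_DS (h.sub n) s).inter' (DS.coord n _)

lemma Rat.choose (h : Rat N a) {n : ℕ} {s : Om} {c : Bool}
    (hc : pr (!c) (info N a n s) < pr c (info N a n s)) : a n s = c := by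
  have := h.opt n s
  by_contra hne
  have e : a n s = !c := by cases c <;> simpa using hne
  rw [e, Bool.not_not] at this
  linarith

lemma Rat.atoms (h : Rat N a) {n : ℕ} {E : Set Om} {c : Bool}
    (hE : ∀ s ∈ E, info N a n s ⊆ E) (hc : ∀ s ∈ E, a n s = c) : pr (!c) E ≤ pr c E := by
  classical
  let φ : Om → Finset ℕ × Bool := fun s => ((N n).filter fun m => a m s = true, s n)
  have hφ : ∀ s, φ ⁻¹' {φ s} = info N a n s := by
    intro s
    ext r
    simp only [φ, mem_preimage, mem_singleton_iff, Prod.mk.injEq, info, mem_setOf_eq,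
      and_congr_left_iff]
    intro _
    constructor
    · intro e m hm
      have := Finset.ext_iff.1 e m
      simp only [Finset.mem_filter, hm, true_and] at this
      exact Bool.eq_iff_iff.2 this
    · intro e
      exact Finset.filter_congr fun m hm => by rw [e m hm]
  let V := ((N n).powerset ×ˢ (Finset.univ : Finset Bool)).filter fun v => ∃ s ∈ E, φ s = v
  have hV : E = φ ⁻¹' V := by
    ext s
    simp only [V, mem_preimage, Finset.coe_filter, mem_setOf_eq]
    constructor
    · intro hs
      exact ⟨by simp [φ], s, hs, rfl⟩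
    · rintro ⟨_, r, hr, e⟩
      exact hE r hr (by rw [← hφ]; exact e.symm)
  have hm : ∀ v ∈ V, MeasurableSet (φ ⁻¹' {v}) := by
    intro v hv
    obtain ⟨s, _, rfl⟩ := (Finset.mem_filter.1 hv).2
    rw [hφ]; exact (h.info_DS n s).meas
  rw [hV]
  unfold pr
  rw [← sum_measureReal_preimage_singleton V hm, ← sum_measureReal_preimage_singleton V hm]
  refine Finset.sum_le_sum fun v hv => ?_
  obtain ⟨s, hs, rfl⟩ := (Finset.mem_filter.1 hv).2
  have := h.opt n s
  rw [hc s hs] at this
  rw [hφ]; exact this

lemma Rat.err_le (h : Rat N a) (n : ℕ) (d : Om → Bool)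
    (hd : ∀ s r, r ∈ info N a n s → d r = d s) :
    pr true {s | a n s = false} + pr false {s | a n s = true} ≤
      pr true {s | d s = false} + pr false {s | d s = true} := by
  have hdS : ∀ b, DS {s | d s = b} (Finset.range n ∪ {n}) := fun b s r hsr hs =>
    (hd s r (h.info_DS n s s r hsr (info_self N a n s))).trans hs
  have haS : ∀ b, DS {s | a n s = b} (Finset.range (n + 1)) := fun b =>
    h.act_DS (Nat.lt_succ_self n) (· = b)
  have k : ∀ b, pr (!b) ({s | a n s = b} ∩ {s | d s = !b}) ≤
      pr b ({s | a n s = b} ∩ {s | d s = !b}) := fun b =>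
    h.atoms (n := n) (fun s hs r hr => ⟨(h.ad n s r hr).trans hs.1, (hd s r hr).trans hs.2⟩)
      fun s hs => hs.1
  have c1 : ∀ (f : Om → Bool) b, {s | f s = b}ᶜ = {s | f s = !b} := by
    intro f b; ext s; cases b <;> simp
  have k1 := k true
  have k2 := k false
  have s1 := pr_split true {s | a n s = false} (hdS false)
  have s2 := pr_split false {s | a n s = true} (hdS true)
  have s3 := pr_split true {s | d s = false} (haS false)
  have s4 := pr_split false {s | d s = true} (haS true)
  rw [c1] at s1 s2 s3 s4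
  rw [inter_comm {s | d s = false}, inter_comm {s | d s = false}] at s3
  rw [inter_comm {s | d s = true}, inter_comm {s | d s = true}] at s4
  simp only [Bool.not_true, Bool.not_false] at *
  linarith

/-- the action of agent `m` depends on her signal -/
def sens (a : Prof) (m : ℕ) (s : Om) : Prop := a m (update s m true) ≠ a m (update s m false)

instance (a : Prof) (m : ℕ) (s : Om) : Decidable (sens a m s) := by unfold sens; infer_instance

def rev (a : Prof) (n : ℕ) (s : Om) : Finset ℕ := (Finset.range n).filter fun m => sens a m s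

lemma Rat.upd (h : Rat N a) {n : ℕ} {s r : Om} (hr : r ∈ ob a (Finset.range n) s) :
    a n r = a n (update s n (r n)) := by
  refine h.ad n _ r ⟨fun m hm => ?_, by simp⟩
  have hmn := h.lt n m hm
  rw [hr m (Finset.mem_range.2 hmn)]
  exact h.dep m _ _ fun i hi => by rw [update_of_ne (by omega)]

lemma Rat.upd_mem (h : Rat N a) {S : Finset ℕ} {K n : ℕ} (hS : S ⊆ Finset.range K) (hn : K ≤ n)
    {s r : Om} (hr : r ∈ ob a S s) (b : Bool) : update r n b ∈ ob a S s :=
  h.ob_DS hS s r _ (fun i hi => by
    rw [update_of_ne (by have := Finset.mem_range.1 hi; omega)]) hr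

lemma Rat.sens_iff (h : Rat N a) {n : ℕ} {s r : Om} (hr : r ∈ ob a (Finset.range n) s) :
    sens a n r ↔ sens a n s := by
  unfold sens
  rw [h.upd (h.upd_mem subset_rfl le_rfl hr true), h.upd (h.upd_mem subset_rfl le_rfl hr false)]
  simp

lemma rev_succ (a : Prof) (n : ℕ) (s : Om) :
    rev a (n + 1) s = if sens a n s then insert n (rev a n s) else rev a n s := by
  unfold rev
  rw [Finset.range_add_one, Finset.filter_insert]

lemma rev_not (a : Prof) (n : ℕ) (s : Om) : n ∉ rev a n s := by simp [rev]

lemma Rat.hist (h : Rat N a) (n : ℕ) (s : Om) :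
    ob a (Finset.range n) s = cyl (rev a n s) s := by
  induction n with
  | zero => ext r; simp [ob, cyl, rev]
  | succ n ih =>
    have e : ob a (Finset.range (n + 1)) s = ob a (Finset.range n) s ∩ {r | a n r = a n s} := by
      ext r; simp [ob, Finset.range_add_one, and_comm]
    have hs := h.upd (ob_self a (Finset.range n) s)
    rw [rev_succ, e]
    split_ifs with hn
    · rw [cyl_insert, ← ih]
      ext r
      simp only [mem_inter_iff, mem_setOf_eq, and_congr_right_iff]
      intro hr
      rw [h.upd hr, hs]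
      unfold sens at hn
      cases r n <;> cases s n <;> simp [hn, hn.symm]
    · rw [← ih, inter_eq_left]
      intro r hr
      rw [mem_setOf_eq, h.upd hr, hs]
      have := not_not.1 hn
      cases r n <;> cases s n <;> simp [this]

lemma Rat.rev_eq (h : Rat N a) {n : ℕ} {s r : Om} (hr : r ∈ ob a (Finset.range n) s) :
    rev a n r = rev a n s :=
  Finset.filter_congr fun m hm => h.sens_iff (ob_anti a
    (Finset.range_subset_range.2 (Finset.mem_range.1 hm).le) s hr)

def DF (f : Om → ℝ) (D : Finset ℕ) : Prop := ∀ s r, (∀ i ∈ D, s i = r i) → f s = f r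

lemma DF.eq_comp {f : Om → ℝ} {D : Finset ℕ} (h : DF f D) :
    f = (fun u : D → Bool => f fun i => if h : i ∈ D then u ⟨i, h⟩ else false) ∘
      fun (s : Om) (i : D) => s i :=
  funext fun s => h _ _ fun i hi => by simp [hi]

lemma DF.int {f : Om → ℝ} {D : Finset ℕ} (h : DF f D) (t : Bool) : Integrable f (law t) := by
  rw [h.eq_comp]
  exact Integrable.comp_measurable Integrable.of_finite
    (measurable_pi_lambda _ fun i => measurable_pi_apply _)

lemma DF.mul {f g : Om → ℝ} {D D' : Finset ℕ} (h : DF f D) (h' : DF g D') (hD : Disjoint D D')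
    (t : Bool) : ∫ s, f s * g s ∂law t = (∫ s, f s ∂law t) * ∫ s, g s ∂law t := by
  have : IndepFun f g (law t) := by
    rw [h.eq_comp, h'.eq_comp]
    exact (indepF t hD).comp Measurable.of_discrete Measurable.of_discrete
  exact this.integral_fun_mul_eq_mul_integral (h.int t).1 (h'.int t).1

noncomputable def psi (c b : Bool) : ℝ := if b = c then 5 / 8 else 5 / 2

lemma int_psi (c : Bool) (n : ℕ) : ∫ s, psi c (s n) ∂law c = 1 := by
  have e : (fun s : Om => psi c (s n)) = fun s =>
      5 / 2 - ({s : Om | s n = c}.indicator fun _ => (15 / 8 : ℝ)) s := by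
    funext s
    by_cases h : s n = c <;> simp [psi, h]
    norm_num
  rw [e, integral_sub (integrable_const _) ((integrable_const _).indicator (DS.coord n c).meas),
    integral_indicator_const _ (DS.coord n c).meas]
  have := pr_coord c n c
  rw [w_self, pr] at this
  rw [this]
  simp
  norm_num

noncomputable def mart (a : Prof) (c : Bool) (n : ℕ) (s : Om) : ℝ := ∏ m ∈ rev a n s, psi c (s m)

lemma Rat.mart_DF (h : Rat N a) (c : Bool) (n : ℕ) : DF (mart a c n) (Finset.range n) := by
  intro s r hsr
  unfold mart
  rw [h.rev_eq (h.ob_DS subset_rfl s s r hsr (ob_self _ _ _))]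
  exact Finset.prod_congr rfl fun m hm => by rw [hsr m (Finset.mem_filter.1 hm).1]

lemma Rat.int_mart (h : Rat N a) (c : Bool) (n : ℕ) : ∫ s, mart a c n s ∂law c = 1 := by
  induction n with
  | zero => simp [mart, rev]
  | succ n ih =>
    let f : Om → ℝ := fun s => if sens a n s then mart a c n s else 0
    have hf : DF f (Finset.range n) := fun s r hsr => by
      simp only [f, h.sens_iff (h.ob_DS subset_rfl s s r hsr (ob_self _ _ _)),
        h.mart_DF c n s r hsr]
    have hp : DF (fun s => psi c (s n)) {n} := fun s r hsr => by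
      simp only [hsr n (Finset.mem_singleton_self n)]
    have hfp : DF (fun s => f s * psi c (s n)) (Finset.range n ∪ {n}) := fun s r hsr => by
      simp only [hsr n (by simp), hf s r fun i hi => hsr i (Finset.mem_union_left _ hi)]
    have e : mart a c (n + 1) = fun s => (mart a c n s - f s) + f s * psi c (s n) := by
      funext s
      simp only [f, mart, rev_succ]
      split_ifs
      · rw [Finset.prod_insert (rev_not a n s)]; ring
      · ring
    have i1 : Integrable (fun s => mart a c n s - f s) (law c) :=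
      ((h.mart_DF c n).int c).sub (hf.int c)
    rw [e, integral_add i1 (hfp.int c),
      integral_sub ((h.mart_DF c n).int c) (hf.int c), hf.mul hp (by simp), int_psi, ih]
    ring

lemma prod_psi (c : Bool) (D : Finset ℕ) (s : Om) :
    ∏ m ∈ D, psi c (s m) = (5 / 4 : ℝ) ^ D.card * (2 : ℝ) ^ (-net c D s) := by
  induction D using Finset.induction_on with
  | empty => simp [net]
  | insert i D hi ih =>
    rw [Finset.prod_insert hi, ih, net_insert c hi, Finset.card_insert_of_notMem hi, neg_add,
      zpow_add₀ (by norm_num), psi]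
    split_ifs <;> simp <;> ring

lemma Rat.tail (h : Rat N a) (c : Bool) {K j : ℕ} (hj : ∀ s, j ≤ (rev a K s).card) :
    pr c {s | net c (rev a K s) s ≤ 0} ≤ (4 / 5 : ℝ) ^ j := by
  have h1 := mul_meas_ge_le_integral_of_nonneg (μ := law c) (f := mart a c K)
    (Filter.Eventually.of_forall fun s => by
      unfold mart; rw [prod_psi]; positivity) ((h.mart_DF c K).int c) ((5 / 4) ^ j)
  rw [h.int_mart] at h1
  have h2 : pr c {s | net c (rev a K s) s ≤ 0} ≤ pr c {s | (5 / 4) ^ j ≤ mart a c K s} := by
    refine pr_mono c fun s hs => ?_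
    rw [mem_setOf_eq, mart, prod_psi]
    have := pow_le_pow_right₀ (by norm_num : (1 : ℝ) ≤ 5 / 4) (hj s)
    have := one_le_zpow₀ (by norm_num : (1 : ℝ) ≤ 2) (neg_nonneg.2 hs)
    have : (0 : ℝ) < (5 / 4) ^ j := by positivity
    nlinarith
  have e : (4 / 5 : ℝ) ^ j * (5 / 4) ^ j = 1 := by rw [← mul_pow]; norm_num
  have : (0 : ℝ) < (4 / 5) ^ j := by positivity
  unfold pr at h2 ⊢
  nlinarith

lemma Rat.err (h : Rat N a) {K j n : ℕ} (hj : ∀ s, j ≤ (rev a K s).card)
    (hn : Finset.range K ⊆ N n) :
    pr true {s | a n s = false} + pr false {s | a n s = true} ≤ 2 * (4 / 5 : ℝ) ^ j := by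
  refine (h.err_le n (fun s => decide (0 < net true (rev a K s) s)) fun s r hr => ?_).trans ?_
  · have hr' := ob_anti a hn s hr.1
    rw [h.rev_eq hr', net_congr true (s := r) (r := s) (by rw [h.hist] at hr'; exact hr')]
  · have h1 := h.tail true hj
    have h2 := h.tail false hj
    have h3 : pr false {s | decide (0 < net true (rev a K s) s) = true} ≤
        pr false {s | net false (rev a K s) s ≤ 0} := pr_mono _ fun s hs => by
      have := net_not true (rev a K s) s
      simp only [mem_setOf_eq, decide_eq_true_eq, Bool.not_true] at *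
      omega
    have e : {s | decide (0 < net true (rev a K s) s) = false} =
        {s | net true (rev a K s) s ≤ 0} := by ext s; simp
    rw [e]
    linarith

end Pool.Agent.H.MP_a79c01_pr
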