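import Pool.Agent.H.MP_a79c01_pr.B

namespace Pool.Agent.H.MP_a79c01_pr

open MeasureTheory ProbabilityTheory Set Function

variable {N : Net} {a : Prof}

def Mod (a : Prof) (S : Finset ℕ) (s : Om) : Prop := ∀ c, pr (!c) (ob a S s) < 4 * pr c (ob a S s)

lemma ob_raw {S R : Finset ℕ} {s : Om} (hR : ∀ r ∈ ob a S s, ∀ x ∈ R, a x r = r x) :
    ob a (S ∪ R) s = ob a S s ∩ cyl R s := by
  rw [ob_union]
  ext r
  simp only [mem_inter_iff, and_congr_right_iff]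
  intro hr
  refine forall₂_congr fun x hx => ?_
  rw [hR r hr x hx, hR s (ob_self _ _ _) x hx]

lemma Rat.vote (h : Rat N a) {y n : ℕ} {S R : Finset ℕ} {s : Om} {c : Bool} (hy : N y = S ∪ R)
    (hS : S ⊆ Finset.range n) (hd : Disjoint (Finset.range n) (insert y R))
    (hR : ∀ r ∈ ob a S s, ∀ x ∈ R, a x r = r x)
    (hc : pr (!c) (ob a S s) < (4 : ℝ) ^ net c (insert y R) s * pr c (ob a S s)) : a y s = c := by
  apply h.choose
  have e : info N a y s = ob a S s ∩ cyl (insert y R) s := by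
    rw [info_eq, hy, ob_raw hR, cyl_insert, inter_assoc]
  have hp := (cyl_DS (insert y R) s).pos (s := s) (fun _ _ => rfl) (!c)
  rw [e, indep _ (h.ob_DS hS s) (cyl_DS _ _) hd, indep _ (h.ob_DS hS s) (cyl_DS _ _) hd,
    cyl_ratio c]
  nlinarith

lemma Rat.raw (h : Rat N a) {x K : ℕ} {s0 : Om} (hS : N x ⊆ Finset.range K) (hx : K ≤ x)
    (hm : Mod a (N x) s0) : ∀ s ∈ ob a (Finset.range K) s0, a x s = s x := by
  intro s hs
  refine h.vote (S := N x) (R := ∅) (by simp) hS (by simpa using hx) (by simp) ?_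
  rw [ob_eq (ob_anti a hS s0 hs), net_all _ (by simp)]
  simpa using hm (s x)

/-- a voter: on `g` it plays `c` exactly on `E` -/
structure Vot (a : Prof) (g : Set Om) (c : Bool) (K x : ℕ) (D : Finset ℕ) (E : Set Om)
    (e1 e0 : ℝ) : Prop where
  ds : DS E D
  dj : Disjoint (Finset.range K) D
  iff : ∀ s ∈ g, a x s = c ↔ s ∈ E
  p1 : pr c Eᶜ = e1
  p0 : pr (!c) E = e0

lemma ne_iff {b c : Bool} : ¬b = c ↔ b = !c := by cases b <;> cases c <;> simp

lemma Rat.voter (h : Rat N a) {x K k : ℕ} {s0 : Om} {c : Bool} {R : Finset ℕ}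
    (hk : pr (!c) (ob a (Finset.range K) s0) = 4 ^ k * pr c (ob a (Finset.range K) s0))
    (hx : N x = Finset.range K ∪ R) (hd : Disjoint (Finset.range K) (insert x R))
    (hR : ∀ r ∈ ob a (Finset.range K) s0, ∀ x ∈ R, a x r = r x)
    (hp : Odd ((insert x R).card + k)) :
    Vot a (ob a (Finset.range K) s0) c K x (insert x R) {s | (k : ℤ) < net c (insert x R) s}
      (T (insert x R).card k) (T (insert x R).card (-k)) := by
  have hne : ∀ s, net c (insert x R) s ≠ k := by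
    intro s e
    obtain ⟨u, hu⟩ := net_par c (insert x R) s
    obtain ⟨v, hv⟩ := hp
    omega
  have hpos := (h.ob_DS (K := K) subset_rfl s0).pos (ob_self _ _ _) c
  have e1 : {s | (k : ℤ) < net c (insert x R) s}ᶜ = {s | net c (insert x R) s < k} := by
    ext s; have := hne s; simp only [mem_compl_iff, mem_setOf_eq]; omega
  have e2 : {s | (k : ℤ) < net c (insert x R) s} = {s | net (!c) (insert x R) s < -k} := by
    ext s; simp only [mem_setOf_eq, net_not]; omega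
  refine ⟨e2 ▸ lo_DS _ _ _, hd, fun s hs => ?_, by rw [e1, pr_lo], by rw [e2, pr_lo]⟩
  have hR' : ∀ r ∈ ob a (Finset.range K) s, ∀ x ∈ R, a x r = r x := by rwa [ob_eq hs]
  constructor
  · intro hc
    by_contra hn
    have : a x s = !c := by
      refine h.vote hx subset_rfl hd hR' ?_
      have hl : (0 : ℤ) < net (!c) (insert x R) s + k := by
        have := hne s; rw [net_not]; simp only [mem_setOf_eq] at hn; omega
      have := one_lt_zpow₀ (by norm_num : (1 : ℝ) < 4) hl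
      rw [zpow_add₀ (by norm_num), zpow_natCast] at this
      rw [Bool.not_not, ob_eq hs, hk]
      nlinarith
    exact ne_iff.2 this hc
  · intro hc
    refine h.vote hx subset_rfl hd hR' ?_
    have := zpow_lt_zpow_right₀ (by norm_num : (1 : ℝ) < 4) hc
    rw [zpow_natCast] at this
    rw [ob_eq hs, hk]
    nlinarith

def sel (E : Set Om) (s : Om) : Set Om := {r | r ∈ E ↔ s ∈ E}

lemma sel_in {E : Set Om} {s : Om} (h : s ∈ E) : sel E s = E := by ext r; simp [sel, h]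
lemma sel_out {E : Set Om} {s : Om} (h : s ∉ E) : sel E s = Eᶜ := by ext r; simp [sel, h]
lemma DS.sel {E : Set Om} {D : Finset ℕ} (h : DS E D) (s : Om) : DS (sel E s) D := by
  by_cases hs : s ∈ E
  · rwa [sel_in hs]
  · rw [sel_out hs]; exact h.compl

lemma Vot.q1 {g c K x D E e1 e0} (v : Vot a g c K x D E e1 e0) : pr c E = 1 - e1 := by
  rw [← v.p1, pr_compl c v.ds]; ring

lemma Vot.q0 {g c K x D E e1 e0} (v : Vot a g c K x D E e1 e0) : pr (!c) Eᶜ = 1 - e0 := by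
  rw [← v.p0, pr_compl _ v.ds]

lemma Vot.sel {g c K x D E e1 e0} (v : Vot a g c K x D E e1 e0) {s r : Om} (hs : s ∈ g)
    (hr : r ∈ g) : a x r = a x s ↔ r ∈ sel E s := by
  rw [MP_a79c01_pr.sel, mem_setOf_eq, ← v.iff s hs, ← v.iff r hr]
  cases a x r <;> cases a x s <;> cases c <;> simp

/-- numerical constraints -/
structure Par (Λ κ a1 a0 b1 b0 u1 u0 τ : ℝ) : Prop where
  L : 1 ≤ Λ
  k1 : κ ≤ 1
  b1p : 0 < b1
  b0p : 0 ≤ b0
  ab : a0 ≤ b1
  ba : κ * b1 ≤ a0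
  aa : a0 ≤ a1
  bb : b0 ≤ b1
  a1l : a1 ≤ 1 / 2
  b1l : b1 ≤ 1 / 2
  u0p : 0 < u0
  u1p : 0 < u1
  u0l : 32 * Λ * u0 < κ
  u1l : 16 * u1 < κ
  gap : 512 * a1 < u0 * u1
  t1 : 8 * Λ < τ * (b1 * u1)
  t2 : 16 * τ * (a1 * b1) < Λ * u0

/-- three voters and a judge -/
structure Cell (N : Net) (a : Prof) (K : ℕ) (s0 : Om) (c : Bool) (Λ : ℝ) (A B U j : ℕ)
    (DA DB DU : Finset ℕ) (EA EB EU : Set Om) (a1 a0 b1 b0 u1 u0 : ℝ) : Prop where
  hk : pr (!c) (ob a (Finset.range K) s0) = Λ * pr c (ob a (Finset.range K) s0)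
  vA : Vot a (ob a (Finset.range K) s0) c K A DA EA a1 a0
  vB : Vot a (ob a (Finset.range K) s0) c K B DB EB b1 b0
  vU : Vot a (ob a (Finset.range K) s0) c K U DU EU u1 u0
  dAB : Disjoint DA DB
  dAU : Disjoint DA DU
  dBU : Disjoint DB DU
  dj : Disjoint (Finset.range K ∪ DA ∪ DB ∪ DU) {j}
  Nj : N j = Finset.range K ∪ {A, B, U}

section cell

variable {K : ℕ} {s0 : Om} {c : Bool} {A B U j : ℕ} {DA DB DU : Finset ℕ} {EA EB EU : Set Om}
  {Λ κ a1 a0 b1 b0 u1 u0 τ : ℝ}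

lemma Cell.pr3 (h : Rat N a) (C : Cell N a K s0 c Λ A B U j DA DB DU EA EB EU a1 a0 b1 b0 u1 u0)
    {X Y Z : Set Om} (hX : DS X DA) (hY : DS Y DB) (hZ : DS Z DU) (u : Bool) :
    pr u (ob a (Finset.range K) s0 ∩ X ∩ Y ∩ Z) =
      pr u (ob a (Finset.range K) s0) * pr u X * pr u Y * pr u Z := by
  have hg := h.ob_DS (K := K) subset_rfl s0
  rw [indep u ((hg.inter' hX).inter' hY) hZ (by
      simp only [Finset.disjoint_union_left]; exact ⟨⟨C.vU.dj, C.dAU⟩, C.dBU⟩),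
    indep u (hg.inter' hX) hY (by
      simp only [Finset.disjoint_union_left]; exact ⟨C.vB.dj, C.dAB⟩),
    indep u hg hX C.vA.dj]

lemma Cell.info (h : Rat N a) (C : Cell N a K s0 c Λ A B U j DA DB DU EA EB EU a1 a0 b1 b0 u1 u0)
    {s : Om} (hs : s ∈ ob a (Finset.range K) s0) (u : Bool) :
    pr u (info N a j s) = pr u (ob a (Finset.range K) s0) * pr u (sel EA s) * pr u (sel EB s) *
      pr u (sel EU s) * w u (s j) := by
  have e : MP_a79c01_pr.info N a j s =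
      ob a (Finset.range K) s0 ∩ sel EA s ∩ sel EB s ∩ sel EU s ∩ {r | r j = s j} := by
    rw [info_eq, C.Nj, ob_union, ob_eq hs]
    congr 1
    ext r
    simp only [mem_inter_iff, and_assoc, and_congr_right_iff]
    intro hr
    rw [← C.vA.sel hs hr, ← C.vB.sel hs hr, ← C.vU.sel hs hr]
    simp [ob]
  have hg := h.ob_DS (K := K) subset_rfl s0
  rw [e, indep u (((hg.inter' (C.vA.ds.sel s)).inter' (C.vB.ds.sel s)).inter' (C.vU.ds.sel s))
    (DS.coord j _) C.dj, C.pr3 h (C.vA.ds.sel s) (C.vB.ds.sel s) (C.vU.ds.sel s), pr_coord]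

lemma Cell.dec (h : Rat N a) (C : Cell N a K s0 c Λ A B U j DA DB DU EA EB EU a1 a0 b1 b0 u1 u0)
    {s : Om} (hs : s ∈ ob a (Finset.range K) s0) :
    (4 * Λ * (pr (!c) (sel EA s) * pr (!c) (sel EB s) * pr (!c) (sel EU s)) <
      pr c (sel EA s) * pr c (sel EB s) * pr c (sel EU s) → a j s = c) ∧
    (4 * (pr c (sel EA s) * pr c (sel EB s) * pr c (sel EU s)) <
      Λ * (pr (!c) (sel EA s) * pr (!c) (sel EB s) * pr (!c) (sel EU s)) → a j s = !c) := by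
  have hpos := (h.ob_DS (K := K) subset_rfl s0).pos (ob_self _ _ _) c
  have hpos' := (h.ob_DS (K := K) subset_rfl s0).pos (ob_self _ _ _) (!c)
  have i1 := C.info h hs c
  have i0 := C.info h hs (!c)
  rw [C.hk] at i0 hpos'
  have hL : 0 < Λ := (pos_iff_pos_of_mul_pos hpos').2 hpos
  have w1 := w_ge c (s j)
  have w2 := w_le c (s j)
  have w3 := w_ge (!c) (s j)
  have w4 := w_le (!c) (s j)
  have n1 : 0 ≤ pr c (sel EA s) * pr c (sel EB s) * pr c (sel EU s) :=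
    mul_nonneg (mul_nonneg (pr_nonneg _ _) (pr_nonneg _ _)) (pr_nonneg _ _)
  have n0 : 0 ≤ Λ * (pr (!c) (sel EA s) * pr (!c) (sel EB s) * pr (!c) (sel EU s)) :=
    mul_nonneg hL.le (mul_nonneg (mul_nonneg (pr_nonneg _ _) (pr_nonneg _ _)) (pr_nonneg _ _))
  set P := pr c (sel EA s) * pr c (sel EB s) * pr c (sel EU s) with hP
  set Q := pr (!c) (sel EA s) * pr (!c) (sel EB s) * pr (!c) (sel EU s) with hQ
  set G := pr c (ob a (Finset.range K) s0)
  have j1 : pr c (MP_a79c01_pr.info N a j s) = G * (P * w c (s j)) := by rw [i1, hP]; ring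
  have j0 : pr (!c) (MP_a79c01_pr.info N a j s) = G * (Λ * Q * w (!c) (s j)) := by
    rw [i0, hQ]; ring
  constructor
  · intro hh
    apply h.choose
    rw [j1, j0]
    exact mul_lt_mul_of_pos_left (by nlinarith) hpos
  · intro hh
    apply h.choose
    rw [Bool.not_not, j1, j0]
    exact mul_lt_mul_of_pos_left (by nlinarith) hpos

lemma Cell.J1 (h : Rat N a) (C : Cell N a K s0 c Λ A B U j DA DB DU EA EB EU a1 a0 b1 b0 u1 u0)
    (p : Par Λ κ a1 a0 b1 b0 u1 u0 τ) {s : Om} (hs : s ∈ ob a (Finset.range K) s0) (hU : s ∈ EU)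
    (hAB : s ∈ EA ∨ s ∈ EB) : a j s = c := by
  obtain ⟨L, k1, b1p, b0p, ab, ba, aa, bb, a1l, b1l, u0p, u1p, u0l, u1l, gap, -, -⟩ := p
  have hLu : 0 < Λ * u0 := by positivity
  have hκ : 0 < κ := by nlinarith
  have a0p : 0 < a0 := lt_of_lt_of_le (by positivity) ba
  apply (C.dec h hs).1
  rw [sel_in hU, C.vU.p0, C.vU.q1]
  have hu : 1 / 2 ≤ 1 - u1 := by linarith
  by_cases hA : s ∈ EA <;> by_cases hB : s ∈ EB
  · rw [sel_in hA, sel_in hB, C.vA.p0, C.vA.q1, C.vB.p0, C.vB.q1]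
    have h1 : a0 * b0 ≤ 1 := by nlinarith
    have h2 : 1 / 4 ≤ (1 - a1) * (1 - b1) := by nlinarith
    have h3 : 1 / 8 ≤ (1 - a1) * (1 - b1) * (1 - u1) := by nlinarith
    nlinarith
  · rw [sel_in hA, sel_out hB, C.vA.p0, C.vA.q1, C.vB.p1, C.vB.q0]
    have h1 : a0 * (1 - b0) ≤ b1 := by nlinarith
    have h2 : 1 / 4 ≤ (1 - a1) * (1 - u1) := by nlinarith
    have h3 : Λ * u0 * (a0 * (1 - b0)) ≤ Λ * u0 * b1 := mul_le_mul_of_nonneg_left h1 hLu.le
    nlinarith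
  · rw [sel_out hA, sel_in hB, C.vA.p1, C.vA.q0, C.vB.p0, C.vB.q1]
    have h1 : (1 - a0) * b0 ≤ b1 := by nlinarith
    have h2 : 1 / 4 ≤ (1 - b1) * (1 - u1) := by nlinarith
    have h3 : Λ * u0 * ((1 - a0) * b0) ≤ Λ * u0 * b1 := mul_le_mul_of_nonneg_left h1 hLu.le
    have h4 : 32 * Λ * u0 * b1 < κ * b1 := mul_lt_mul_of_pos_right u0l b1p
    nlinarith
  · tauto

lemma Cell.J2 (h : Rat N a) (C : Cell N a K s0 c Λ A B U j DA DB DU EA EB EU a1 a0 b1 b0 u1 u0)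
    (p : Par Λ κ a1 a0 b1 b0 u1 u0 τ) {s : Om} (hs : s ∈ ob a (Finset.range K) s0) (hU : s ∈ EU)
    (hA : s ∉ EA) (hB : s ∉ EB) : a j s = !c := by
  obtain ⟨L, k1, b1p, b0p, ab, ba, aa, bb, a1l, b1l, u0p, u1p, u0l, u1l, gap, -, -⟩ := p
  have hLu : 0 < Λ * u0 := by positivity
  have hκ : 0 < κ := by nlinarith
  have a0p : 0 < a0 := lt_of_lt_of_le (by positivity) ba
  apply (C.dec h hs).2
  rw [sel_in hU, C.vU.p0, C.vU.q1, sel_out hA, sel_out hB, C.vA.p1, C.vA.q0, C.vB.p1, C.vB.q0]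
  have h2 : 1 / 4 ≤ (1 - a0) * (1 - b0) := by nlinarith
  have h1 : b1 * (1 - u1) ≤ 1 := by nlinarith
  have h3 : a1 * (b1 * (1 - u1)) ≤ a1 := by nlinarith
  have h4 : u0 * u1 ≤ u0 := by nlinarith
  have h5 : u0 ≤ Λ * u0 := by nlinarith
  nlinarith

lemma Cell.J3 (h : Rat N a) (C : Cell N a K s0 c Λ A B U j DA DB DU EA EB EU a1 a0 b1 b0 u1 u0)
    (p : Par Λ κ a1 a0 b1 b0 u1 u0 τ) {s : Om} (hs : s ∈ ob a (Finset.range K) s0) (hU : s ∉ EU)
    (hA : s ∈ EA) (hB : s ∉ EB) : a j s = !c := by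
  obtain ⟨L, k1, b1p, b0p, ab, ba, aa, bb, a1l, b1l, u0p, u1p, u0l, u1l, gap, -, -⟩ := p
  have hLu : 0 < Λ * u0 := by positivity
  have hκ : 0 < κ := by nlinarith
  have a0p : 0 < a0 := lt_of_lt_of_le (by positivity) ba
  apply (C.dec h hs).2
  rw [sel_out hU, C.vU.p1, C.vU.q0, sel_in hA, sel_out hB, C.vA.p0, C.vA.q1, C.vB.p1, C.vB.q0]
  have h0 : u0 ≤ 1 / 2 := by nlinarith
  have h2 : 1 / 4 ≤ (1 - b0) * (1 - u0) := by nlinarith
  have h3 : a0 / 4 ≤ a0 * ((1 - b0) * (1 - u0)) := by nlinarith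
  have h4 : 16 * u1 * b1 < κ * b1 := mul_lt_mul_of_pos_right u1l b1p
  have h5 : (1 - a1) * (b1 * u1) ≤ b1 * u1 := by nlinarith [mul_pos b1p u1p]
  have h6 : a0 * ((1 - b0) * (1 - u0)) ≤ Λ * (a0 * ((1 - b0) * (1 - u0))) := by nlinarith
  nlinarith

end cell

end Pool.Agent.H.MP_a79c01_pr
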