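import Pool.Agent.H.MP_a79c01_pr.C

namespace Pool.Agent.H.MP_a79c01_pr

open MeasureTheory ProbabilityTheory Set Function

variable {N : Net} {a : Prof}

structure Spy (N : Net) (a : Prof) (K : ℕ) (s0 : Om) (U j y n t : ℕ) (X : Finset ℕ) : Prop where
  hy : N y = (Finset.range K ∪ {U, j}) ∪ X
  hn : Finset.range K ∪ {U, j} ⊆ Finset.range n
  hd : Disjoint (Finset.range n) (insert y X)
  nm : y ∉ X
  cd : X.card = t
  hX : ∀ r ∈ ob a (Finset.range K) s0, ∀ x ∈ X, a x r = r x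

section cell

variable {K : ℕ} {s0 : Om} {c : Bool} {A B U j y n t : ℕ} {DA DB DU X : Finset ℕ}
  {EA EB EU : Set Om} {Λ κ a1 a0 b1 b0 u1 u0 : ℝ}

lemma mem_ob2 {s r : Om} (hs : s ∈ ob a (Finset.range K) s0) :
    r ∈ ob a (Finset.range K ∪ {U, j}) s ↔
      r ∈ ob a (Finset.range K) s0 ∧ a U r = a U s ∧ a j r = a j s := by
  rw [ob_union, ob_eq hs]; simp [ob]

lemma Cell.Y1 (h : Rat N a) (C : Cell N a K s0 c Λ A B U j DA DB DU EA EB EU a1 a0 b1 b0 u1 u0)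
    (p : Par Λ κ a1 a0 b1 b0 u1 u0 (4 ^ t)) (Y : Spy N a K s0 U j y n t X) {s : Om}
    (hs : s ∈ ob a (Finset.range K) s0) (hU : s ∈ EU) (hA : s ∉ EA) (hB : s ∉ EB) :
    a y s = !c := by
  have e : ob a (Finset.range K ∪ {U, j}) s = ob a (Finset.range K) s0 ∩ EAᶜ ∩ EBᶜ ∩ EU := by
    ext r
    rw [mem_ob2 hs, (C.vU.iff s hs).2 hU, C.J2 h p hs hU hA hB]
    simp only [mem_inter_iff, mem_compl_iff, and_assoc, and_congr_right_iff]
    intro hr
    rw [C.vU.iff r hr]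
    constructor
    · rintro ⟨h1, h2⟩
      exact ⟨fun h3 => ne_iff.2 h2 (C.J1 h p hr h1 (Or.inl h3)),
        fun h3 => ne_iff.2 h2 (C.J1 h p hr h1 (Or.inr h3)), h1⟩
    · rintro ⟨h1, h2, h3⟩
      exact ⟨h3, C.J2 h p hr h3 h1 h2⟩
  refine h.vote Y.hy Y.hn Y.hd (fun r hr => Y.hX r ((mem_ob2 hs).1 hr).1) ?_
  have hpos := (h.ob_DS (K := K) subset_rfl s0).pos (ob_self _ _ _) c
  have hn := net_le c (insert y X) s
  rw [Finset.card_insert_of_notMem Y.nm, Y.cd] at hn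
  have h4 : (4 : ℝ) ^ (-((t + 1 : ℕ) : ℤ)) ≤ 4 ^ net (!c) (insert y X) s :=
    zpow_le_zpow_right₀ (by norm_num) (by rw [net_not]; omega)
  rw [zpow_neg, zpow_natCast, pow_succ] at h4
  rw [Bool.not_not, e, C.pr3 h C.vA.ds.compl C.vB.ds.compl C.vU.ds,
    C.pr3 h C.vA.ds.compl C.vB.ds.compl C.vU.ds, C.hk, C.vU.p0, C.vU.q1, C.vA.p1, C.vA.q0,
    C.vB.p1, C.vB.q0]
  obtain ⟨L, k1, b1p, b0p, ab, ba, aa, bb, a1l, b1l, u0p, u1p, u0l, u1l, gap, -, t2⟩ := p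
  have hLu : 0 < Λ * u0 := by positivity
  have hκ : 0 < κ := by nlinarith
  have a0p : 0 < a0 := lt_of_lt_of_le (by positivity) ba
  have hτ : (0 : ℝ) < 4 ^ t := by positivity
  set τ : ℝ := 4 ^ t
  set G := pr c (ob a (Finset.range K) s0)
  have h2 : 1 / 4 ≤ (1 - a0) * (1 - b0) := by nlinarith
  have h3 : a1 * b1 * (1 - u1) ≤ a1 * b1 := by nlinarith [mul_pos (a0p.trans_le aa) b1p]
  have h5 : a1 * b1 < (τ * 4)⁻¹ * (Λ * u0 / 4) := by
    rw [inv_mul_eq_div, lt_div_iff₀ (by positivity)]; linarith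
  have h6 : (τ * 4)⁻¹ * (Λ * u0 / 4) ≤
      4 ^ net (!c) (insert y X) s * (Λ * u0 * ((1 - a0) * (1 - b0))) :=
    mul_le_mul h4 (by nlinarith) (by positivity) (by positivity)
  have h7 := mul_lt_mul_of_pos_left ((h3.trans_lt h5).trans_le h6) hpos
  linarith

lemma Cell.Y2 (h : Rat N a) (C : Cell N a K s0 c Λ A B U j DA DB DU EA EB EU a1 a0 b1 b0 u1 u0)
    (p : Par Λ κ a1 a0 b1 b0 u1 u0 (4 ^ t)) (Y : Spy N a K s0 U j y n t X) {s : Om}
    (hs : s ∈ ob a (Finset.range K) s0) (hU : s ∉ EU) (hX : ∀ x ∈ X, s x = c) : a y s = c := by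
  refine h.vote Y.hy Y.hn Y.hd (fun r hr => Y.hX r ((mem_ob2 hs).1 hr).1) ?_
  have hpos := (h.ob_DS (K := K) subset_rfl s0).pos (ob_self _ _ _) c
  have hn : (t : ℤ) - 1 ≤ net c (insert y X) s := by
    rw [net_insert c Y.nm, net_all c hX, Y.cd]; split_ifs <;> omega
  have h4 : (4 : ℝ) ^ ((t : ℤ) - 1) ≤ 4 ^ net c (insert y X) s :=
    zpow_le_zpow_right₀ (by norm_num) hn
  rw [zpow_sub_one₀ (by norm_num), zpow_natCast] at h4
  have hF := (h.ob_DS Y.hn s).pos (ob_self _ _ _) c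
  have p' := p
  obtain ⟨L, k1, b1p, b0p, ab, ba, aa, bb, a1l, b1l, u0p, u1p, u0l, u1l, gap, t1, -⟩ := p'
  have hτ : (0 : ℝ) < 4 ^ t := by positivity
  have hbu := mul_pos b1p u1p
  by_cases hj : a j s = c
  · have : pr (!c) (ob a (Finset.range K ∪ {U, j}) s) ≤ pr c (ob a (Finset.range K ∪ {U, j}) s) := by
      refine h.atoms (n := j) (fun r hr x hx => ?_) fun r hr => ((mem_ob2 hs).1 hr).2.2.trans hj
      obtain ⟨h1, h2, h3⟩ := (mem_ob2 hs).1 hr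
      have hx1 := hx.1
      rw [C.Nj] at hx1
      exact (mem_ob2 hs).2 ⟨fun m hm => (hx1 m (Finset.mem_union_left _ hm)).trans (h1 m hm),
        (hx1 U (by simp)).trans h2, (h.ad j r x hx).trans h3⟩
    have h5 : b1 * u1 ≤ 1 := by nlinarith
    have h6 : (8 : ℝ) < 4 ^ t := by nlinarith
    nlinarith
  · have h1 : pr (!c) (ob a (Finset.range K ∪ {U, j}) s) ≤ Λ * pr c (ob a (Finset.range K) s0) := by
      rw [← C.hk]; exact pr_mono _ fun r hr => ((mem_ob2 hs).1 hr).1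
    have h2 : pr c (ob a (Finset.range K) s0 ∩ EA ∩ EBᶜ ∩ EUᶜ) ≤
        pr c (ob a (Finset.range K ∪ {U, j}) s) := by
      refine pr_mono _ ?_
      rintro r ⟨⟨⟨h1, h2⟩, h3⟩, h4⟩
      refine (mem_ob2 hs).2 ⟨h1, (C.vU.sel hs h1).2 (by rwa [sel_out hU]), ?_⟩
      rw [C.J3 h p h1 h4 h2 h3, ne_iff.1 hj]
    rw [C.pr3 h C.vA.ds C.vB.ds.compl C.vU.ds.compl, C.vA.q1, C.vB.p1, C.vU.p1] at h2
    set G := pr c (ob a (Finset.range K) s0)
    have h3 : G * (b1 * u1 / 2) ≤ G * (1 - a1) * b1 * u1 := by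
      nlinarith [mul_pos hpos hbu]
    have h5 : 4 ^ t * 4⁻¹ * (G * (b1 * u1 / 2)) ≤
        4 ^ net c (insert y X) s * pr c (ob a (Finset.range K ∪ {U, j}) s) :=
      mul_le_mul h4 (h3.trans h2) (by positivity) (by positivity)
    nlinarith

end cell

lemma pr_all {ι : Type} [DecidableEq ι] (u : Bool) {E0 : Set Om} {D0 : Finset ℕ} (h0 : DS E0 D0)
    {E : ι → Set Om} {D : ι → Finset ℕ} (hE : ∀ i, DS (E i) (D i)) (hd : ∀ i, Disjoint D0 (D i))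
    (hp : ∀ i i', i ≠ i' → Disjoint (D i) (D i')) {x : ℝ} (hx : ∀ i, pr u (E i) = x)
    (I : Finset ι) : pr u (E0 ∩ {s | ∀ i ∈ I, s ∈ E i}) = pr u E0 * x ^ I.card := by
  induction I using Finset.induction_on with
  | empty => simp
  | insert i I hi ih =>
    have e : E0 ∩ {s | ∀ i' ∈ insert i I, s ∈ E i'} = E0 ∩ {s | ∀ i ∈ I, s ∈ E i} ∩ E i := by
      ext s; simp only [mem_inter_iff, mem_setOf_eq, Finset.forall_mem_insert]; tauto
    have d : DS {s | ∀ i ∈ I, s ∈ E i} (I.biUnion D) := fun s r hsr hs i hi =>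
      hE i s r (fun m hm => hsr m (Finset.mem_biUnion.2 ⟨i, hi, hm⟩)) (hs i hi)
    rw [e, indep u (h0.inter' d) (hE i) ?_, ih, hx, Finset.card_insert_of_notMem hi]
    · ring
    · rw [Finset.disjoint_union_left, Finset.disjoint_biUnion_left]
      exact ⟨hd i, fun i' hi' => hp i' i (by rintro rfl; exact hi hi')⟩

lemma core1 (h : Rat N a) {K : ℕ} {s0 : Om} {c : Bool} {A B t r L n1 : ℕ} {U j : Fin r → ℕ}
    {DA DB : Finset ℕ} {DU : Fin r → Finset ℕ} {EA EB : Set Om} {EU : Fin r → Set Om}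
    {Λ κ a1 a0 b1 b0 u1 u0 : ℝ} {X : Fin L → Finset ℕ} {y : Fin r × Fin L → ℕ} {n : ℕ}
    (hr : 0 < r) (hL : 0 < L)
    (C : ∀ i, Cell N a K s0 c Λ A B (U i) (j i) DA DB (DU i) EA EB (EU i) a1 a0 b1 b0 u1 u0)
    (p : Par Λ κ a1 a0 b1 b0 u1 u0 (4 ^ t))
    (Y : ∀ i l, Spy N a K s0 (U i) (j i) (y (i, l)) n t (X l))
    (dU : ∀ i i', i ≠ i' → Disjoint (DU i) (DU i')) (dX : ∀ l l', l ≠ l' → Disjoint (X l) (X l'))
    (hn : ∀ x, y x < n1) (hK : K ≤ n1)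
    (num : Λ * (u0 ^ r + (1 - (1 / 5) ^ t) ^ L) ≤ a1 * b1 * (1 - u1) ^ r)
    {s : Om} (hs : s ∈ ob a (Finset.range K) s0) :
    ∃ S, Finset.range K ⊆ S ∧ S ⊆ Finset.range n1 ∧ pr (!c) (ob a S s) ≤ pr c (ob a S s) := by
  have hg := h.ob_DS (K := K) subset_rfl s0
  have hpos := hg.pos (ob_self _ _ _) c
  by_cases hy : ∃ x, a (y x) s = c
  · obtain ⟨⟨i, l⟩, hx⟩ := hy
    refine ⟨Finset.range K ∪ {y (i, l)}, Finset.subset_union_left, Finset.union_subset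
      (Finset.range_subset_range.2 hK) (by simpa using hn _), ?_⟩
    refine h.atoms (n := y (i, l)) (fun r hr x hx => ?_) fun r hr => (hr _ (by simp)).trans hx
    intro m hm
    rw [← hr m hm]
    rcases Finset.mem_union.1 hm with hm | hm
    · exact hx.1 m (by rw [(Y i l).hy]; simp [Finset.mem_range.1 hm])
    · rw [Finset.mem_singleton.1 hm]; exact h.ad _ r x hx
  · have hy' : ∀ x, a (y x) s = !c := fun x => ne_iff.1 fun e => hy ⟨x, e⟩
    refine ⟨Finset.range K ∪ Finset.univ.image y, Finset.subset_union_left, Finset.union_subset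
      (Finset.range_subset_range.2 hK) (Finset.image_subset_iff.2 fun x _ => Finset.mem_range.2 (hn x)), ?_⟩
    have hm : ∀ r, r ∈ ob a (Finset.range K ∪ Finset.univ.image y) s ↔
        r ∈ ob a (Finset.range K) s0 ∧ ∀ x, a (y x) r = !c := by
      intro r
      rw [ob_union, ob_eq hs, mem_inter_iff]
      simp only [ob, mem_setOf_eq, Finset.forall_mem_image, Finset.mem_univ, true_imp_iff, hy']
    let i0 : Fin r := ⟨0, hr⟩
    have C0 := C i0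
    have h1 : pr c (ob a (Finset.range K) s0 ∩ EAᶜ ∩ EBᶜ ∩ {s | ∀ i ∈ Finset.univ, s ∈ EU i}) ≤
        pr c (ob a (Finset.range K ∪ Finset.univ.image y) s) := by
      refine pr_mono _ ?_
      rintro r ⟨⟨⟨h1, h2⟩, h3⟩, h4⟩
      exact (hm r).2 ⟨h1, fun x => (C x.1).Y1 h p (Y x.1 x.2) h1 (h4 _ (Finset.mem_univ _)) h2 h3⟩
    rw [pr_all c ((hg.inter' C0.vA.ds.compl).inter' C0.vB.ds.compl) (fun i => (C i).vU.ds)
      (fun i => by
        simp only [Finset.disjoint_union_left]; exact ⟨⟨(C i).vU.dj, (C i).dAU⟩, (C i).dBU⟩)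
      dU (fun i => (C i).vU.q1), indep c (hg.inter' C0.vA.ds.compl) C0.vB.ds.compl (by
        simp only [Finset.disjoint_union_left]; exact ⟨C0.vB.dj, C0.dAB⟩),
      indep c hg C0.vA.ds.compl C0.vA.dj, C0.vA.p1, C0.vB.p1] at h1
    have h2 : pr (!c) (ob a (Finset.range K ∪ Finset.univ.image y) s) ≤
        pr (!c) (ob a (Finset.range K) s0 ∩ {s | ∀ i ∈ Finset.univ, s ∈ EU i} ∪
          ob a (Finset.range K) s0 ∩ {s | ∀ l ∈ Finset.univ, s ∈ (cyl (X l) fun _ => c)ᶜ}) := by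
      refine pr_mono _ fun r hr => ?_
      obtain ⟨h1, h2⟩ := (hm r).1 hr
      by_cases h3 : ∀ i, r ∈ EU i
      · exact Or.inl ⟨h1, fun i _ => h3 i⟩
      · obtain ⟨i, hi⟩ := not_forall.1 h3
        exact Or.inr ⟨h1, fun l _ hl => ne_iff.2 (h2 (i, l)) ((C i).Y2 h p (Y i l) h1 hi hl)⟩
    have h3 := h2.trans (pr_union_le _ _ _)
    rw [pr_all (!c) hg (fun i => (C i).vU.ds) (fun i => (C i).vU.dj) dU (fun i => (C i).vU.p0),
      pr_all (!c) hg (fun l => (cyl_DS (X l) _).compl) (fun l => ((Y i0 l).hd.mono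
        (Finset.subset_union_left.trans (Y i0 l).hn) (Finset.subset_insert _ _))) dX
        (x := 1 - (1 / 5) ^ t) (fun l => by
          rw [pr_compl _ (cyl_DS _ _), pr_cyl, Finset.prod_const, w_not', (Y i0 l).cd]),
      C0.hk] at h3
    simp only [Finset.card_univ, Fintype.card_fin] at h1 h3
    nlinarith [mul_le_mul_of_nonneg_left num hpos.le]

lemma tune (h : Rat N a) {S Z : Finset ℕ} {n : ℕ} {s : Om} {c : Bool} (hS : S ⊆ Finset.range n)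
    (hd : Disjoint (Finset.range n) Z) (hZ : ∀ r ∈ ob a S s, ∀ x ∈ Z, a x r = r x)
    (hc : ∀ x ∈ Z, s x = !c) (hn : 2 * n ≤ Z.card) (hp : pr (!c) (ob a S s) ≤ pr c (ob a S s)) :
    ∃ Z' ⊆ Z, Mod a (S ∪ Z') s := by
  have hQ := (h.ob_DS hS s).ge (ob_self _ _ _) (!c)
  have hP := (h.ob_DS hS s).pos (ob_self _ _ _) c
  have hP1 := pr_le_one c (ob a S s)
  rw [Finset.card_range] at hQ
  have h2n : pr c (ob a S s) < 4 * 4 ^ (2 * n) * pr (!c) (ob a S s) := by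
    have e : (4 : ℝ) ^ (2 * n) * (1 / 5) ^ n = (16 / 5) ^ n := by
      rw [pow_mul, ← mul_pow]; norm_num
    have := one_le_pow₀ (by norm_num : (1 : ℝ) ≤ 16 / 5) (n := n)
    have : (0 : ℝ) < 4 ^ (2 * n) := by positivity
    nlinarith
  have hex : ∃ z : ℕ, pr c (ob a S s) < 4 * 4 ^ z * pr (!c) (ob a S s) := ⟨_, h2n⟩
  classical
  have h1 := Nat.find_spec hex
  have h2 : 4 ^ Nat.find hex * pr (!c) (ob a S s) ≤ pr c (ob a S s) := by
    rcases e : Nat.find hex with _ | z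
    · simpa using hp
    · have := Nat.find_min hex (m := z) (by omega)
      rw [pow_succ]; linarith
  obtain ⟨Z', hZ', hcard⟩ := Finset.exists_subset_card_eq ((Nat.find_min' hex h2n).trans hn)
  refine ⟨Z', hZ', ?_⟩
  have hd' := hd.mono_right hZ'
  have e := cyl_ratio (!c) Z' s
  rw [net_all _ fun x hx => hc x (hZ' hx), hcard, zpow_natCast, Bool.not_not] at e
  have hp := (cyl_DS Z' s).pos (s := s) (fun _ _ => rfl) c
  intro u
  rw [ob_raw fun r hr x hx => hZ r hr x (hZ' hx), indep _ (h.ob_DS hS s) (cyl_DS _ _) hd',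
    indep _ (h.ob_DS hS s) (cyl_DS _ _) hd']
  by_cases hu : u = c
  · rw [hu, e]; nlinarith
  · rw [ne_iff.1 hu, Bool.not_not, e]; nlinarith

lemma small (k : ℕ) {ε : ℝ} (hε : 0 < ε) :
    ∃ m, Odd (m + 1 + k) ∧ k ≤ m ∧ ∀ m', m ≤ m' → T (m' + 1) k ≤ ε := by
  obtain ⟨m, hm⟩ := exists_pow_lt_of_lt_one (x := ε / 2 ^ k) (y := (4 / 5 : ℝ)) (by positivity)
    (by norm_num)
  refine ⟨2 * m + k, ⟨m + k, by ring⟩, by omega, fun m' hm' => (T_le _ _).trans ?_⟩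
  have := pow_le_pow_of_le_one (by norm_num : (0 : ℝ) ≤ 4 / 5) (by norm_num)
    (by omega : m ≤ m' + 1)
  rw [lt_div_iff₀ (by positivity)] at hm
  rw [zpow_natCast]
  have : (0 : ℝ) < 2 ^ k := by positivity
  nlinarith

lemma params (k : ℕ) : ∃ mU mB t r L : ℕ, 0 < r ∧ 0 < L ∧ Odd (mU + 1 + k) ∧ Odd (mB + 1 + k) ∧
    Par (4 ^ k) ((1 / 5) ^ (2 * k)) (T (mB + 2 * k + 1) k) (T (mB + 2 * k + 1) (-k))
      (T (mB + 1) k) (T (mB + 1) (-k)) (T (mU + 1) k) (T (mU + 1) (-k)) (4 ^ t) ∧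
    4 ^ k * (T (mU + 1) (-k) ^ r + (1 - (1 / 5) ^ t) ^ L) ≤
      T (mB + 2 * k + 1) k * T (mB + 1) k * (1 - T (mU + 1) k) ^ r := by
  have hL : (1 : ℝ) ≤ 4 ^ k := one_le_pow₀ (by norm_num)
  have hκ : (0 : ℝ) < (1 / 5) ^ (2 * k) := by positivity
  have hκ1 : (1 / 5 : ℝ) ^ (2 * k) ≤ 1 := pow_le_one₀ (by norm_num) (by norm_num)
  set Λ : ℝ := 4 ^ k
  set κ : ℝ := (1 / 5) ^ (2 * k) with hκd
  obtain ⟨mU, oU, kU, hU⟩ := small k (ε := κ / (64 * Λ)) (by positivity)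
  have u1l := hU mU le_rfl
  have u0p : 0 < T (mU + 1) (-k) := T_pos _ (by push_cast; omega)
  have u01 : T (mU + 1) (-k) ≤ T (mU + 1) k := T_mono _ (by omega)
  set u1 := T (mU + 1) k
  set u0 := T (mU + 1) (-k)
  have u1p : 0 < u1 := u0p.trans_le u01
  rw [le_div_iff₀ (by positivity)] at u1l
  have u1s : u1 ≤ 1 / 64 := by nlinarith
  obtain ⟨mB, oB, kB, hB⟩ := small k (ε := u0 * u1 / 1024) (by positivity)
  have b1l := hB mB le_rfl
  have a1l := hB (mB + 2 * k) (by omega)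
  have b0p : 0 < T (mB + 1) (-k) := T_pos _ (by push_cast; omega)
  have b01 : T (mB + 1) (-k) ≤ T (mB + 1) k := T_mono _ (by omega)
  have a01 : T (mB + 2 * k + 1) (-k) ≤ T (mB + 2 * k + 1) k := T_mono _ (by omega)
  have hab := T_down (2 * k) (mB + 1) k
  rw [show mB + 1 + 2 * k = mB + 2 * k + 1 by ring,
    show (k : ℤ) - (2 * k : ℕ) = -k by push_cast; ring, ← hκd] at hab
  set a1 := T (mB + 2 * k + 1) k
  set a0 := T (mB + 2 * k + 1) (-k)
  set b1 := T (mB + 1) k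
  set b0 := T (mB + 1) (-k)
  have b1p : 0 < b1 := b0p.trans_le b01
  have a1p : 0 < a1 := lt_of_lt_of_le (mul_pos hκ b1p) (hab.1.trans a01)
  have uu : u0 * u1 ≤ 1 := by nlinarith
  have hbu : 0 < b1 * u1 := mul_pos b1p u1p
  have hex : ∃ t : ℕ, 8 * Λ < 4 ^ t * (b1 * u1) := by
    obtain ⟨t, ht⟩ := pow_unbounded_of_one_lt (8 * Λ / (b1 * u1)) (by norm_num : (1 : ℝ) < 4)
    exact ⟨t, by rwa [div_lt_iff₀ hbu] at ht⟩
  classical
  have t1 := Nat.find_spec hex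
  have t2 : 16 * 4 ^ Nat.find hex * (a1 * b1) < Λ * u0 := by
    rcases e : Nat.find hex with _ | z
    · rw [e] at t1; nlinarith
    · have h1 := not_lt.1 (Nat.find_min hex (m := z) (by omega))
      have h2 : (0 : ℝ) < 4 ^ z * b1 := by positivity
      have h3 := mul_le_mul_of_nonneg_left a1l h2.le
      have h4 := mul_le_mul_of_nonneg_left h1 u0p.le
      rw [pow_succ]
      nlinarith [mul_pos (zero_lt_one.trans_le hL) u0p]
  set t := Nat.find hex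
  have hab' : 0 < a1 * b1 := mul_pos a1p b1p
  obtain ⟨r, hr⟩ := exists_pow_lt_of_lt_one (x := a1 * b1 / (2 * Λ)) (y := (1 / 2 : ℝ))
    (by positivity) (by norm_num)
  obtain ⟨L, hL'⟩ := exists_pow_lt_of_lt_one (x := (1 / 4 : ℝ) ^ (r + 1))
    (y := 1 - (1 / 5 : ℝ) ^ t) (by positivity) (by simp)
  have f0 : (0 : ℝ) ≤ 1 - (1 / 5) ^ t := sub_nonneg.2 (pow_le_one₀ (by norm_num) (by norm_num))
  have f1 : (1 - (1 / 5 : ℝ) ^ t) ^ (L + 1) ≤ (1 - (1 / 5) ^ t) ^ L :=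
    pow_le_pow_of_le_one f0 (by simp) (by omega)
  have f2 : u0 ^ (r + 1) ≤ (1 / 4) ^ (r + 1) := pow_le_pow_left₀ u0p.le (by linarith) _
  have f3 : (1 / 2 : ℝ) ^ (r + 1) ≤ (1 - u1) ^ (r + 1) :=
    pow_le_pow_left₀ (by norm_num) (by linarith) _
  have f4 : (1 / 4 : ℝ) ^ (r + 1) = (1 / 2) ^ (r + 1) * ((1 / 2) ^ r * (1 / 2)) := by
    rw [← pow_succ, ← mul_pow]; norm_num
  have f5 : (0 : ℝ) < (1 / 2) ^ (r + 1) := by positivity
  have f6 : (0 : ℝ) < (1 / 2) ^ r := by positivity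
  rw [lt_div_iff₀ (by positivity)] at hr
  refine ⟨mU, mB, t, r + 1, L + 1, by omega, by omega, oU, oB,
    ⟨hL, hκ1, b1p, b0p.le, hab.2, hab.1, a01, b01, by linarith, by linarith, u0p, u1p,
      by nlinarith, by nlinarith, by nlinarith [mul_pos u0p u1p], t1, t2⟩, ?_⟩
  have g1 : Λ * (u0 ^ (r + 1) + (1 - (1 / 5) ^ t) ^ (L + 1)) ≤ Λ * (2 * (1 / 4) ^ (r + 1)) :=
    mul_le_mul_of_nonneg_left (by linarith) (by linarith)
  have g2 := mul_le_mul_of_nonneg_left f3 hab'.le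
  have g3 : Λ * (1 / 2) ^ r ≤ a1 * b1 := by nlinarith
  have g4 := mul_le_mul_of_nonneg_left g3 f5.le
  rw [f4] at g1
  nlinarith

end Pool.Agent.H.MP_a79c01_pr
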