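import Pool.Agent.H.MP_a79c01_pr.D

namespace Pool.Agent.H.MP_a79c01_pr

open MeasureTheory ProbabilityTheory Set Function

structure Ext (K0 : ℕ) (N : Net) (n : ℕ) (N' : Net) (n' : ℕ) : Prop where
  le : n ≤ n'
  ag : ∀ m < n, N m = N' m
  ob : ∀ m, n ≤ m → m < n' → Finset.range K0 ⊆ N' m
  va : Valid N'

lemma Ext.trans {K0 : ℕ} {N N' N'' : Net} {n n' n'' : ℕ} (h : Ext K0 N n N' n')
    (h' : Ext K0 N' n' N'' n'') : Ext K0 N n N'' n'' := by
  refine ⟨h.le.trans h'.le, fun m hm => (h.ag m hm).trans (h'.ag m (hm.trans_le h.le)),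
    fun m h1 h2 => ?_, h'.va⟩
  by_cases h3 : m < n'
  · rw [← h'.ag m h3]; exact h.ob m h1 h3
  · exact h'.ob m (not_lt.1 h3) h2

lemma Ext.act {K0 : ℕ} {N N' : Net} {n n' : ℕ} (h : Ext K0 N n N' n') (hN : Valid N) (tie : Tie) :
    ∀ m < n, act N tie m = act N' tie m :=
  bayes_congr hN h.ag (act_bayes hN tie) (act_bayes h.va tie)

lemma batch {ι : Type} [Fintype ι] {K0 n : ℕ} {N : Net} (hN : Valid N) (O : ι → Finset ℕ)
    (h1 : ∀ x, Finset.range K0 ⊆ O x) (h2 : ∀ x, O x ⊆ Finset.range n) :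
    ∃ N' n', ∃ e : ι → ℕ, Ext K0 N n N' n' ∧ Injective e ∧ (∀ x, n ≤ e x) ∧ (∀ x, e x < n') ∧
      ∀ x, N' (e x) = O x := by
  let q := Fintype.equivFin ι
  refine ⟨fun m => if h : n ≤ m ∧ m - n < Fintype.card ι then O (q.symm ⟨m - n, h.2⟩) else N m,
    n + Fintype.card ι, fun x => n + q x, ⟨by omega, fun m hm => ?_, fun m a b => ?_,
      fun m i hi => ?_⟩, fun x y e => q.injective (Fin.ext (by simpa using e)), fun x => Nat.le_add_right _ _,
      fun x => Nat.add_lt_add_left (q x).2 _, fun x => ?_⟩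
  · rw [dif_neg (by omega)]
  · rw [dif_pos ⟨a, by omega⟩]; exact h1 _
  · split_ifs at hi with h
    · exact (Finset.mem_range.1 (h2 _ hi)).trans_le h.1
    · exact hN m i hi
  · have := (q x).2
    dsimp only
    rw [dif_pos ⟨by omega, by omega⟩]
    simp

def Good (a : Prof) (K n : ℕ) (s0 : Om) : Prop :=
  ∀ s ∈ ob a (Finset.range K) s0,
    (∃ S, Finset.range K ⊆ S ∧ S ⊆ Finset.range n ∧ Mod a S s) ∧ ∃ m, K ≤ m ∧ m < n ∧ sens a m s

lemma Mod.congr {a a' : Prof} {S : Finset ℕ} {n : ℕ} {s : Om} (h : Mod a S s)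
    (hS : S ⊆ Finset.range n) (ha : ∀ m < n, a m = a' m) : Mod a' S s := by
  unfold Mod
  rw [← ob_congr fun m hm => ha m (Finset.mem_range.1 (hS hm))]
  exact h

lemma Good.congr {a a' : Prof} {K n n' : ℕ} {s0 : Om} (h : Good a K n s0) (hK : K ≤ n)
    (hn : n ≤ n') (ha : ∀ m < n, a m = a' m) : Good a' K n' s0 := by
  intro s hs
  rw [← ob_congr fun m hm => ha m ((Finset.mem_range.1 hm).trans_le hK)] at hs
  obtain ⟨⟨S, h1, h2, h3⟩, m, h4, h5, h6⟩ := h s hs
  refine ⟨⟨S, h1, h2.trans (Finset.range_subset_range.2 hn), h3.congr h2 ha⟩, m, h4,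
    h5.trans_le hn, ?_⟩
  unfold sens
  rwa [← ha m h5]

lemma dj_range {n : ℕ} {D : Finset ℕ} (h : ∀ x ∈ D, n ≤ x) : Disjoint (Finset.range n) D :=
  Finset.disjoint_left.2 fun x hx hx' => absurd (h x hx') (not_le.2 (Finset.mem_range.1 hx))

lemma gadget (tie : Tie) {N : Net} (hN : Valid N) {K0 K n : ℕ} (h0 : K0 ≤ K) (hK : K ≤ n)
    {S0 : Finset ℕ} (hS0 : Finset.range K0 ⊆ S0) (hS1 : S0 ⊆ Finset.range K) {s0 : Om}
    (hm : Mod (act N tie) S0 s0) : ∃ N' n', Ext K0 N n N' n' ∧ Good (act N' tie) K n' s0 := by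
  have hr0 := (act_bayes hN tie).rat hN
  obtain ⟨c, k, hk⟩ : ∃ (c : Bool) (k : ℕ), pr (!c) (ob (act N tie) (Finset.range K) s0) =
      4 ^ k * pr c (ob (act N tie) (Finset.range K) s0) := by
    rw [hr0.hist]
    obtain ⟨c, hc⟩ : ∃ c, 0 ≤ net (!c) (rev (act N tie) K s0) s0 := by
      have := net_not true (rev (act N tie) K s0) s0
      by_cases h : 0 ≤ net true (rev (act N tie) K s0) s0
      · exact ⟨false, h⟩
      · exact ⟨true, by omega⟩
    obtain ⟨k, hk⟩ := Int.eq_ofNat_of_zero_le hc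
    exact ⟨c, k, by rw [cyl_ratio (!c), hk, zpow_natCast, Bool.not_not]⟩
  obtain ⟨mU, mB, t, r, L, hr, hL, oU, oB, p, num⟩ := params k
  have r0 : Finset.range K0 ⊆ Finset.range K := Finset.range_subset_range.2 h0
  have rK : ∀ {m}, K ≤ m → Finset.range K ⊆ Finset.range m := fun h =>
    Finset.range_subset_range.2 h
  let sz : Option (Option (Fin r)) → ℕ := fun x => x.elim (mB + 2 * k) fun x => x.elim mB fun _ => mU
  obtain ⟨N1, n1, e1, x1, i1, l1, g1, o1⟩ := batch (ι := (x : Option (Option (Fin r))) × Fin (sz x))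
    (n := n) hN (fun _ => S0) (fun _ => hS0) fun _ => hS1.trans (rK hK)
  have K1 := hK.trans x1.le
  let R : Option (Option (Fin r)) → Finset ℕ := fun x => Finset.univ.image fun i => e1 ⟨x, i⟩
  have hR : ∀ x, ∀ m ∈ R x, ∃ i, e1 ⟨x, i⟩ = m := fun x m hm => by simpa [R] using hm
  obtain ⟨N2, n2, e2, x2, i2, l2, g2, o2⟩ := batch (n := n1) x1.va
    (fun x => Finset.range K ∪ R x) (fun _ => r0.trans Finset.subset_union_left) fun x =>
      Finset.union_subset (rK K1) fun m hm => by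
        obtain ⟨i, rfl⟩ := hR x m hm; exact Finset.mem_range.2 (g1 _)
  have K2 := K1.trans x2.le
  obtain ⟨N3, n3, e3, x3, i3, l3, g3, o3⟩ := batch (ι := Fin r) (n := n2) x2.va
    (fun i => Finset.range K ∪ {e2 none, e2 (some none), e2 (some (some i))})
    (fun _ => r0.trans Finset.subset_union_left) fun x =>
      Finset.union_subset (rK K2) (by simp [Finset.insert_subset_iff, g2])
  have K3 := K2.trans x3.le
  obtain ⟨N4, n4, e4, x4, i4, l4, g4, o4⟩ := batch (ι := Fin L × Fin t) (n := n3) x3.va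
    (fun _ => S0) (fun _ => hS0) fun _ => hS1.trans (rK K3)
  have K4 := K3.trans x4.le
  let X : Fin L → Finset ℕ := fun l => Finset.univ.image fun i => e4 (l, i)
  have hX : ∀ l, ∀ m ∈ X l, ∃ i, e4 (l, i) = m := fun x m hm => by simpa [X] using hm
  have hUj : ∀ i, Finset.range K ∪ {e2 (some (some i)), e3 i} ⊆ Finset.range n3 := fun i =>
    Finset.union_subset (rK K3) (by
      simp [Finset.insert_subset_iff, g3, (g2 _).trans_le x3.le])
  obtain ⟨N5, n5, e5, x5, i5, l5, g5, o5⟩ := batch (ι := Fin r × Fin L) (n := n4) x4.va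
    (fun x => (Finset.range K ∪ {e2 (some (some x.1)), e3 x.1}) ∪ X x.2)
    (fun _ => r0.trans (Finset.subset_union_left.trans Finset.subset_union_left)) fun x =>
      Finset.union_subset ((hUj _).trans (Finset.range_subset_range.2 x4.le)) fun m hm => by
        obtain ⟨i, rfl⟩ := hX _ m hm; exact Finset.mem_range.2 (g4 _)
  have K5 := K4.trans x5.le
  obtain ⟨N6, n6, e6, x6, i6, l6, g6, o6⟩ := batch (ι := Fin (4 * n5 + 1)) (n := n5) x5.va
    (fun _ => S0) (fun _ => hS0) fun _ => hS1.trans (rK K5)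
  have y5 := x5.trans x6
  have y4 := x4.trans y5
  have y3 := x3.trans y4
  have y2 := x2.trans y3
  have y1 := x1.trans y2
  refine ⟨N6, n6, y1, ?_⟩
  have h := (act_bayes x6.va tie).rat x6.va
  have hag := y1.act hN tie
  have hm' := hm.congr (hS1.trans (rK hK)) hag
  rw [ob_congr fun m hm => hag m ((Finset.mem_range.1 hm).trans_le hK)] at hk
  set a := act N6 tie
  have raw : ∀ x, N6 x = S0 → K ≤ x → ∀ s ∈ ob a (Finset.range K) s0, a x s = s x :=
    fun x e hx => h.raw (e ▸ hS1) hx (e ▸ hm')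
  have hc : ∀ x, (insert (e2 x) (R x)).card = sz x + 1 := by
    intro x
    rw [Finset.card_insert_of_notMem, Finset.card_image_of_injective, Finset.card_univ,
      Fintype.card_fin]
    · exact fun i j e => by simpa using i1 e
    · intro hm
      obtain ⟨i, hi⟩ := hR x _ hm
      have := g1 ⟨x, i⟩; have := l2 x; omega
  have V : ∀ x, Odd (sz x + 1 + k) → Vot a (ob a (Finset.range K) s0) c K (e2 x)
      (insert (e2 x) (R x)) {s | (k : ℤ) < net c (insert (e2 x) (R x)) s}
      (T (sz x + 1) k) (T (sz x + 1) (-k)) := by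
    intro x hx
    rw [← hc x] at hx ⊢
    refine h.voter hk ((y3.ag _ (g2 x)).symm.trans (o2 x)) (dj_range fun m hm => ?_)
      (fun r hr m hm => ?_) hx
    · rcases Finset.mem_insert.1 hm with rfl | hm
      · exact K1.trans (l2 x)
      · obtain ⟨i, rfl⟩ := hR x m hm; exact hK.trans (l1 _)
    · obtain ⟨i, rfl⟩ := hR x m hm
      exact raw _ ((y2.ag _ (g1 _)).symm.trans (o1 _)) (hK.trans (l1 _)) r hr
  have dD : ∀ x x', x ≠ x' → Disjoint (insert (e2 x) (R x)) (insert (e2 x') (R x')) := by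
    intro x x' hx
    refine Finset.disjoint_left.2 fun m h1 h2 => ?_
    rcases Finset.mem_insert.1 h1 with h1 | h1 <;> rcases Finset.mem_insert.1 h2 with h2 | h2
    · exact hx (i2 (h1.symm.trans h2))
    · obtain ⟨i, hi⟩ := hR _ m h2
      have := g1 ⟨x', i⟩; have := l2 x; omega
    · obtain ⟨i, hi⟩ := hR _ m h1
      have := g1 ⟨x, i⟩; have := l2 x'; omega
    · obtain ⟨i, hi⟩ := hR _ m h1
      obtain ⟨i', hi'⟩ := hR _ m h2
      exact hx (congrArg Sigma.fst (i1 (hi.trans hi'.symm)))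
  have dJ : ∀ x i, e3 i ∉ insert (e2 x) (R x) := by
    intro x i hm
    have := l3 i
    rcases Finset.mem_insert.1 hm with hm | hm
    · have := g2 x; omega
    · obtain ⟨j, hj⟩ := hR _ _ hm
      have := g1 ⟨x, j⟩; have := x2.le; omega
  have oA : Odd (mB + 2 * k + 1 + k) := by
    obtain ⟨v, hv⟩ := oB; exact ⟨v + k, by omega⟩
  intro s hs
  obtain ⟨S, hS, hS', hp⟩ := core1 h (n1 := n5) (n := n3) (X := X) (y := e5) hr hL
    (fun i => ⟨hk, V none oA, V (some none) oB, V (some (some i)) oU, dD _ _ (by simp),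
      dD _ _ (by simp), dD _ _ (by simp), by
        simp only [Finset.disjoint_singleton_right, Finset.mem_union, dJ, or_false,
          Finset.mem_range, not_lt]
        exact K2.trans (l3 i), (y4.ag _ (g3 i)).symm.trans (o3 i)⟩) p
    (fun i l => ⟨(x6.ag _ (g5 _)).symm.trans (o5 _), hUj i, dj_range fun m hm => by
        rcases Finset.mem_insert.1 hm with rfl | hm
        · exact x4.le.trans (l5 _)
        · obtain ⟨i, rfl⟩ := hX _ m hm; exact l4 _,
      fun hm => by
        obtain ⟨j, hj⟩ := hX _ _ hm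
        have := g4 (l, j); have := l5 (i, l); omega,
      by rw [Finset.card_image_of_injective _ fun i j e => by simpa using i4 e]; simp,
      fun r hr m hm => by
        obtain ⟨i, rfl⟩ := hX _ m hm
        exact raw _ ((y5.ag _ (g4 _)).symm.trans (o4 _)) (K3.trans (l4 _)) r hr⟩)
    (fun i i' hi => dD _ _ (by simpa using hi))
    (fun l l' hl => Finset.disjoint_left.2 fun m h1 h2 => by
      obtain ⟨i, hi⟩ := hX _ m h1
      obtain ⟨i', hi'⟩ := hX _ m h2
      exact hl (congrArg Prod.fst (i4 (hi.trans hi'.symm)))) g5 K5 num hs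
  have rawZ : ∀ i, ∀ s ∈ ob a (Finset.range K) s0, a (e6 i) s = s (e6 i) := fun i =>
    raw _ (o6 i) (K5.trans (l6 i))
  have fin : ∀ (c' : Bool) (S : Finset ℕ), Finset.range K ⊆ S → S ⊆ Finset.range n5 →
      pr (!c') (ob a S s) ≤ pr c' (ob a S s) →
      2 * n5 ≤ ((Finset.univ.image e6).filter fun x => s x = !c').card →
      ∃ S, Finset.range K ⊆ S ∧ S ⊆ Finset.range n6 ∧ Mod a S s := by
    intro c' S h1 h2 h3 h4
    have hZ : ∀ m ∈ (Finset.univ.image e6).filter fun x => s x = !c', ∃ i, e6 i = m :=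
      fun m hm => by simpa using (Finset.mem_filter.1 hm).1
    obtain ⟨Z', hZ', hM⟩ := tune h h2 (dj_range fun m hm => by
      obtain ⟨i, rfl⟩ := hZ m hm; exact l6 i) (fun r hr m hm => by
        obtain ⟨i, rfl⟩ := hZ m hm
        exact rawZ i r (by rw [← ob_eq hs]; exact ob_anti a h1 s hr))
      (fun x hx => (Finset.mem_filter.1 hx).2) h4 h3
    refine ⟨_, h1.trans Finset.subset_union_left, Finset.union_subset
      (h2.trans (Finset.range_subset_range.2 x6.le)) fun m hm => ?_, hM⟩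
    obtain ⟨i, rfl⟩ := hZ m (hZ' hm)
    exact Finset.mem_range.2 (g6 i)
  refine ⟨?_, e6 0, K5.trans (l6 0), g6 0, ?_⟩
  · have hcard := Finset.card_filter_add_card_filter_not (s := Finset.univ.image e6)
      fun x => s x = !c
    rw [Finset.card_image_of_injective _ i6, Finset.card_univ, Fintype.card_fin] at hcard
    by_cases h4 : 2 * n5 ≤ ((Finset.univ.image e6).filter fun x => s x = !c).card
    · exact fin c S hS hS' hp h4
    · refine fin (!c) _ subset_rfl (rK K5) ?_ ?_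
      · rw [Bool.not_not, ob_eq hs, hk]
        exact le_mul_of_one_le_left (pr_nonneg _ _) p.L
      · simp only [ne_iff] at hcard
        omega
  · unfold sens
    rw [rawZ 0 _ (h.upd_mem subset_rfl (K5.trans (l6 0)) hs true),
      rawZ 0 _ (h.upd_mem subset_rfl (K5.trans (l6 0)) hs false)]
    simp

def Pre (a : Prof) (K0 K : ℕ) : Prop :=
  ∀ s, ∃ S, Finset.range K0 ⊆ S ∧ S ⊆ Finset.range K ∧ Mod a S s

lemma multi (tie : Tie) {N : Net} (hN : Valid N) {K0 K : ℕ} (h0 : K0 ≤ K)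
    (hP : Pre (act N tie) K0 K) (F : List Om) :
    ∃ N' n', Ext K0 N K N' n' ∧ ∀ s0 ∈ F, Good (act N' tie) K n' s0 := by
  induction F with
  | nil => exact ⟨N, K, ⟨le_rfl, fun _ _ => rfl, fun m a b => by omega, hN⟩, by simp⟩
  | cons s0 F ih =>
    obtain ⟨N1, n1, x1, hF⟩ := ih
    obtain ⟨S, h1, h2, h3⟩ := hP s0
    obtain ⟨N2, n2, x2, hG⟩ := gadget tie x1.va h0 x1.le h1 h2 (h3.congr h2 (x1.act hN tie))
    refine ⟨N2, n2, x1.trans x2, fun s hs => ?_⟩
    rcases List.mem_cons.1 hs with rfl | hs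
    · exact hG
    · exact (hF s hs).congr x1.le x2.le (x2.act x1.va tie)

lemma stage (tie : Tie) {N : Net} (hN : Valid N) {K0 K : ℕ} (h0 : K0 ≤ K)
    (hP : Pre (act N tie) K0 K) : ∃ N' K', Ext K0 N K N' K' ∧ Pre (act N' tie) K K' ∧
      ∀ s, ∃ m, K ≤ m ∧ m < K' ∧ sens (act N' tie) m s := by
  let f : (Fin K → Bool) → Om := fun u i => if h : i < K then u ⟨i, h⟩ else false
  obtain ⟨N', K', x, hG⟩ := multi tie hN h0 hP (Finset.univ.toList.map f)
  have key := fun s : Om => hG (f fun i => s i) (List.mem_map_of_mem (by simp)) s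
    (((act_bayes x.va tie).rat x.va).ob_DS subset_rfl _ _ s
      (fun i hi => by simp [f, Finset.mem_range.1 hi]) (ob_self _ _ _))
  exact ⟨N', K', x, fun s => (key s).1, fun s => (key s).2⟩

lemma chain (tie : Tie) : ∃ (M : ℕ → Net) (K : ℕ → ℕ), ∀ j, Valid (M j) ∧ K j ≤ K (j + 1) ∧
    Ext (K j) (M j) (K (j + 1)) (M (j + 1)) (K (j + 2)) ∧
    ∀ s, ∃ m, K (j + 1) ≤ m ∧ m < K (j + 2) ∧ sens (act (M (j + 1)) tie) m s := by
  let St := {p : Net × ℕ × ℕ // Valid p.1 ∧ p.2.1 ≤ p.2.2 ∧ Pre (act p.1 tie) p.2.1 p.2.2}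
  have : ∀ p : St, ∃ q : St, q.1.2.1 = p.1.2.2 ∧ Ext p.1.2.1 p.1.1 p.1.2.2 q.1.1 q.1.2.2 ∧
      ∀ s, ∃ m, p.1.2.2 ≤ m ∧ m < q.1.2.2 ∧ sens (act q.1.1 tie) m s := by
    rintro ⟨⟨N, K0, K⟩, h1, h2, h3⟩
    obtain ⟨N', K', x, hP, hs⟩ := stage tie h1 h2 h3
    exact ⟨⟨⟨N', K, K'⟩, x.va, x.le, hP⟩, rfl, x, hs⟩
  choose nx h1 h2 h3 using this
  let p0 : St := ⟨⟨fun _ => ∅, 0, 0⟩, fun _ _ h => by simp at h, le_rfl, fun s =>
    ⟨∅, by simp, by simp, fun c => by
      have : ob (act (fun _ => ∅) tie) ∅ s = univ := by ext r; simp [ob]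
      rw [this, pr_univ, pr_univ]; norm_num⟩⟩
  let q : ℕ → St := fun j => nx^[j] p0
  have hq : ∀ j, q (j + 1) = nx (q j) := fun j => iterate_succ_apply' _ _ _
  have hK : ∀ j, (q (j + 1)).1.2.1 = (q j).1.2.2 := fun j => by rw [hq, h1]
  refine ⟨fun j => (q j).1.1, fun j => (q j).1.2.1, fun j => ⟨(q j).2.1, ?_, ?_, ?_⟩⟩
  · dsimp only; rw [hK]; exact (q j).2.2.1
  · dsimp only; rw [hK, hK, hq]; exact h2 _
  · dsimp only; rw [hK, hK, hq]; exact h3 _

theorem main (tie : Tie) : ∃ N : Net, Valid N ∧ ∀ a, Bayes N tie a → ∀ j, ∃ n0, ∀ n ≥ n0,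
    pr true {s | a n s = false} + pr false {s | a n s = true} ≤ 2 * (4 / 5 : ℝ) ^ j := by
  obtain ⟨M, K, h⟩ := chain tie
  have mono : Monotone K := monotone_nat_of_le_succ fun j => (h j).2.1
  have big : ∀ j, j ≤ K (j + 1) := by
    intro j
    induction j with
    | zero => omega
    | succ j ih => obtain ⟨m, h1, h2, -⟩ := (h j).2.2.2 fun _ => true; exact (ih.trans h1).trans_lt h2
  have ag : ∀ i j, i ≤ j → ∀ m < K (i + 1), M i m = M j m := by
    intro i j hij m hm
    induction j, hij using Nat.le_induction with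
    | base => rfl
    | succ j hij ih => exact ih.trans ((h j).2.2.1.ag m (hm.trans_le (mono (by omega))))
  have ag' : ∀ j, ∀ m < K (j + 1), M (m + 1) m = M j m := fun j m hm =>
    (ag (m + 1) (max (m + 1) j) (le_max_left _ _) m (big (m + 1))).trans
      (ag j _ (le_max_right _ _) m hm).symm
  have hv : Valid fun m => M (m + 1) m := fun m => (h (m + 1)).1 m
  refine ⟨fun m => M (m + 1) m, hv, fun a ha j => ⟨K (j + 2), fun n hn => ?_⟩⟩
  refine (ha.rat hv).err (K := K (j + 1)) (fun s => ?_) ?_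
  · clear hn
    induction j with
    | zero => omega
    | succ j ih =>
      obtain ⟨m, h1, h2, h3⟩ := (h j).2.2.2 s
      have e := bayes_congr hv (ag' (j + 1)) ha (act_bayes (h (j + 1)).1 tie) m h2
      refine Nat.succ_le_of_lt (ih.trans_lt (Finset.card_lt_card ⟨Finset.filter_subset_filter _
        (Finset.range_subset_range.2 (mono (by omega))), fun hh => ?_⟩))
      have := hh (Finset.mem_filter.2 ⟨Finset.mem_range.2 h2, by unfold sens; rwa [e]⟩)
      have := Finset.mem_range.1 (Finset.mem_filter.1 this).1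
      omega
  · have : ∀ i, n < K (j + 2 + i) → Finset.range (K (j + 1)) ⊆ M (n + 1) n := by
      intro i
      induction i with
      | zero => intro h; exact absurd hn (not_le.2 h)
      | succ i ih =>
        intro hi
        by_cases h1 : n < K (j + 2 + i)
        · exact ih h1
        · have e : j + 2 + i = j + 1 + i + 1 := by ring
          rw [ag' (j + 1 + i + 1) n (by rwa [← e])]
          exact (Finset.range_subset_range.2 (mono (by omega))).trans
            ((h (j + 1 + i)).2.2.1.ob n (by rw [← e]; omega)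
              (by rwa [show j + 1 + i + 2 = j + 2 + (i + 1) by ring]))
    exact this n ((big (n + 1)).trans (mono (by omega)))

end Pool.Agent.H.MP_a79c01_pr
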